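import Pool.Agent.H76.KO.Card

/-! The Baire property: `ℵ₁` many countably dense and countably open sets have a common point. -/

open Set Cardinal

namespace Pool.H76.KO

variable {G : Type}

/-- Countable conditions. -/
abbrev St (G : Type) := {C : Set G // C.Countable} × (G → ℤ)

lemma exists_nxt {W : W1 → Set (G → ℤ)} (hW : ∀ i, SD (W i)) (i : W1) (a : St G) :
    ∃ b : St G, a.1.1 ⊆ b.1.1 ∧ EqOn b.2 a.2 a.1.1 ∧ ∀ y, EqOn y b.2 b.1.1 → y ∈ W i := by
  obtain ⟨C', h1, h2, y', h3, h4⟩ := hW i a.1.1 a.1.2 a.2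
  exact ⟨(⟨C', h1⟩, y'), h2, h3, h4⟩

open Classical in
/-- The condition before step `i`. -/
noncomputable def pre (a₀ : St G) (i : W1) (S : ∀ j, j < i → St G) : St G :=
  (⟨a₀.1.1 ∪ ⋃ j : Iio i, (S j.1 j.2).1.1, a₀.1.2.union (by
      have : Countable (Iio i) := (W1_countable_Iio i).to_subtype
      exact countable_iUnion fun j => (S j.1 j.2).1.2)⟩,
    fun x => if h : ∃ j : Iio i, x ∈ (S j.1 j.2).1.1 then
      (S (Classical.choose h).1 (Classical.choose h).2).2 x else a₀.2 x)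

lemma baire {W : W1 → Set (G → ℤ)} (hW : ∀ i, SD (W i)) {C₀ : Set G} (hC₀ : C₀.Countable)
    (y₀ : G → ℤ) : ∃ y, EqOn y y₀ C₀ ∧ ∀ i, y ∈ W i := by
  classical
  choose nxt hn1 hn2 hn3 using exists_nxt hW
  let a₀ : St G := (⟨C₀, hC₀⟩, y₀)
  let S : W1 → St G := (wellFounded_lt (α := W1)).fix (fun i S => nxt i (pre a₀ i S))
  have hS : ∀ i, S i = nxt i (pre a₀ i fun j _ => S j) := fun i =>
    (wellFounded_lt (α := W1)).fix_eq (fun i S => nxt i (pre a₀ i S)) i
  have key : ∀ i, (∀ j, j < i → (S j).1.1 ⊆ (S i).1.1 ∧ EqOn (S i).2 (S j).2 (S j).1.1) ∧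
      C₀ ⊆ (S i).1.1 ∧ EqOn (S i).2 y₀ C₀ := by
    intro i
    induction i using (wellFounded_lt (α := W1)).induction with
    | _ i ih =>
      have ih' : ∀ j j', j < i → j' < i → ∀ x, x ∈ (S j).1.1 → x ∈ (S j').1.1 →
          (S j).2 x = (S j').2 x := by
        intro j j' hj hj' x hx hx'
        rcases lt_trichotomy j j' with h | h | h
        · exact (((ih j' hj').1 j h).2 hx).symm
        · rw [h]
        · exact ((ih j hj).1 j' h).2 hx'
      have hsub : (pre a₀ i fun j _ => S j).1.1 ⊆ (S i).1.1 := by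
        rw [hS i]; exact hn1 i _
      have heq : EqOn (S i).2 (pre a₀ i fun j _ => S j).2 (pre a₀ i fun j _ => S j).1.1 := by
        rw [hS i]; exact hn2 i _
      have hpj : ∀ j, j < i → (S j).1.1 ⊆ (pre a₀ i fun j _ => S j).1.1 := by
        intro j hj x hx
        exact Or.inr (mem_iUnion.2 ⟨⟨j, hj⟩, hx⟩)
      have hp0 : C₀ ⊆ (pre a₀ i fun j _ => S j).1.1 := fun x hx => Or.inl hx
      refine ⟨?_, hp0.trans hsub, ?_⟩
      · intro j hj
        refine ⟨(hpj j hj).trans hsub, ?_⟩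
        intro x hx
        rw [heq (hpj j hj hx)]
        have hex : ∃ j : Iio i, x ∈ (S j.1).1.1 := ⟨⟨j, hj⟩, hx⟩
        simp only [pre, hex, dif_pos]
        exact ih' _ _ (Classical.choose hex).2 hj x (Classical.choose_spec hex) hx
      · intro x hx
        rw [heq (hp0 hx)]
        by_cases hex : ∃ j : Iio i, x ∈ (S j.1).1.1
        · simp only [pre, hex, dif_pos]
          exact (ih _ (Classical.choose hex).2).2.2 hx
        · simp only [pre, hex, dif_neg, not_false_eq_true]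
          rfl
  have coh : ∀ j j' x, x ∈ (S j).1.1 → x ∈ (S j').1.1 → (S j).2 x = (S j').2 x := by
    intro j j' x hx hx'
    rcases lt_trichotomy j j' with h | h | h
    · exact (((key j').1 j h).2 hx).symm
    · rw [h]
    · exact ((key j).1 j' h).2 hx'
  let y : G → ℤ := fun x => if h : ∃ j, x ∈ (S j).1.1 then (S (Classical.choose h)).2 x else y₀ x
  have hy : ∀ i, EqOn y (S i).2 (S i).1.1 := by
    intro i x hx
    have hex : ∃ j, x ∈ (S j).1.1 := ⟨i, hx⟩
    simp only [y, hex, dif_pos]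
    exact coh _ _ x (Classical.choose_spec hex) hx
  refine ⟨y, ?_, ?_⟩
  · intro x hx
    have i : W1 := Classical.arbitrary _
    rw [hy i ((key i).2.1 hx)]
    exact (key i).2.2 hx
  · intro i
    have : ∀ y', EqOn y' (S i).2 (S i).1.1 → y' ∈ W i := by
      rw [hS i]; exact hn3 i _
    exact this y (hy i)

/-- The same for a family indexed by a type with at most `ℵ₁` elements. -/
lemma baire' {J : Type} (hJ : #J ≤ ℵ₁) {W : J → Set (G → ℤ)} (hW : ∀ i, SD (W i))
    {C₀ : Set G} (hC₀ : C₀.Countable) (y₀ : G → ℤ) : ∃ y, EqOn y y₀ C₀ ∧ ∀ i, y ∈ W i := by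
  rcases isEmpty_or_nonempty J with h | h
  · exact ⟨y₀, fun x _ => rfl, fun i => (h.false i).elim⟩
  · obtain ⟨e, he⟩ := exists_surj hJ
    obtain ⟨y, h1, h2⟩ := baire (W := fun i => W (e i)) (fun i => hW _) hC₀ y₀
    refine ⟨y, h1, fun j => ?_⟩
    obtain ⟨i, rfl⟩ := he j
    exact h2 i

end Pool.H76.KO
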