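import Mathlib

/-! Patterns, the open sets they give, and their countable exterior. -/

open Set Cardinal

namespace Pool.H76.KO

/-- The type of countable ordinals, as a well ordered type. -/
abbrev W1 : Type := (ℵ₁ : Cardinal.{0}).ord.ToType

variable {G : Type}

/-- Finite patterns. -/
abbrev Pat (G : Type) := Finset (G × ℤ)

/-- The basic set of a finite pattern. -/
def Nb (s : Pat G) : Set (G → ℤ) := {y | ∀ p ∈ s, y p.1 = p.2}

/-- The open set of a family of finite patterns. -/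
def Op (V : Set (Pat G)) : Set (G → ℤ) := {y | ∃ s ∈ V, y ∈ Nb s}

/-- The points which a countable set of coordinates keeps away from `Op V`. -/
def Ext (V : Set (Pat G)) : Set (G → ℤ) :=
  {y | ∃ C : Set G, C.Countable ∧ ∀ y', EqOn y' y C → y' ∉ Op V}

/-- Every countable pattern is compatible with a member of `V`. -/
def Full (V : Set (Pat G)) : Prop :=
  ∀ C : Set G, C.Countable → ∀ y : G → ℤ, ∃ y', EqOn y' y C ∧ y' ∈ Op V

/-- Countably dense and countably open. -/
def SD (W : Set (G → ℤ)) : Prop :=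
  ∀ C : Set G, C.Countable → ∀ y : G → ℤ, ∃ C' : Set G, C'.Countable ∧ C ⊆ C' ∧
    ∃ y', EqOn y' y C ∧ ∀ y'', EqOn y'' y' C' → y'' ∈ W

/-- The coordinates of a finite pattern. -/
def dom (s : Pat G) : Set G := {x | ∃ p ∈ s, p.1 = x}

lemma dom_finite (s : Pat G) : (dom s).Finite := by
  have : dom s = Prod.fst '' (s : Set (G × ℤ)) := by
    ext x; simp [dom]
  rw [this]
  exact s.finite_toSet.image _

lemma mem_dom {s : Pat G} {p : G × ℤ} (h : p ∈ s) : p.1 ∈ dom s := ⟨p, h, rfl⟩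

lemma Nb_congr {s : Pat G} {y y' : G → ℤ} (h : EqOn y y' (dom s)) (hy : y' ∈ Nb s) :
    y ∈ Nb s := fun p hp => by rw [h (mem_dom hp)]; exact hy p hp

lemma Op_mono {V W : Set (Pat G)} (h : V ⊆ W) : Op V ⊆ Op W := by
  rintro y ⟨s, hs, hy⟩; exact ⟨s, h hs, hy⟩

lemma Op_union (V W : Set (Pat G)) : Op (V ∪ W) = Op V ∪ Op W := by
  ext y; constructor
  · rintro ⟨s, hs | hs, hy⟩
    · exact Or.inl ⟨s, hs, hy⟩
    · exact Or.inr ⟨s, hs, hy⟩
  · rintro (⟨s, hs, hy⟩ | ⟨s, hs, hy⟩)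
    · exact ⟨s, Or.inl hs, hy⟩
    · exact ⟨s, Or.inr hs, hy⟩

lemma Ext_not_Op {V : Set (Pat G)} {y : G → ℤ} (h : y ∈ Ext V) : y ∉ Op V := by
  obtain ⟨C, _, hC⟩ := h
  exact hC y (fun x _ => rfl)

lemma Ext_disjoint {V W : Set (Pat G)} (h : Full (V ∪ W)) {y : G → ℤ} (h1 : y ∈ Ext V)
    (h2 : y ∈ Ext W) : False := by
  obtain ⟨C, hC, h1⟩ := h1
  obtain ⟨D, hD, h2⟩ := h2
  obtain ⟨y', hy', hO⟩ := h (C ∪ D) (hC.union hD) y
  rw [Op_union] at hO
  rcases hO with hO | hO
  · exact h1 y' (hy'.mono subset_union_left) hO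
  · exact h2 y' (hy'.mono subset_union_right) hO

lemma Full_mono {V W : Set (Pat G)} (h : V ⊆ W) (hV : Full V) : Full W := by
  intro C hC y
  obtain ⟨y', h1, h2⟩ := hV C hC y
  exact ⟨y', h1, Op_mono h h2⟩

open Classical in
/-- Every neighbourhood of a point of the product contains a basic set. -/
lemma exists_pat {U : Set (G → ℤ)} (hU : IsOpen U) {y : G → ℤ} (hy : y ∈ U) :
    ∃ s : Pat G, y ∈ Nb s ∧ Nb s ⊆ U := by
  rw [isOpen_pi_iff] at hU
  obtain ⟨I, u, h1, h2⟩ := hU y hy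
  refine ⟨I.image fun x => (x, y x), ?_, ?_⟩
  · intro p hp
    simp only [Finset.mem_image] at hp
    obtain ⟨x, _, rfl⟩ := hp
    rfl
  · intro z hz
    apply h2
    intro x hx
    have : z x = y x := hz (x, y x) (by
      simp only [Finset.mem_image]; exact ⟨x, hx, rfl⟩)
    rw [this]
    exact (h1 x hx).2

lemma isOpen_Nb (s : Pat G) : IsOpen (Nb s) := by
  have : Nb s = ⋂ p ∈ s, (fun y : G → ℤ => y p.1) ⁻¹' {p.2} := by
    ext y; simp [Nb]
  rw [this]
  apply isOpen_biInter_finset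
  intro p _
  exact (isOpen_discrete _).preimage (continuous_apply _)

lemma isOpen_of_pat {U : Set (G → ℤ)} (h : ∀ y ∈ U, ∃ s : Pat G, y ∈ Nb s ∧ Nb s ⊆ U) :
    IsOpen U := by
  rw [isOpen_iff_forall_mem_open]
  intro y hy
  obtain ⟨s, h1, h2⟩ := h y hy
  exact ⟨Nb s, h2, isOpen_Nb s, h1⟩

open Classical in
/-- The set of points which agree on a finite set with a point of `E`. -/
lemma isClopen_fin (E : Set (G → ℤ)) (F : Finset G) :
    IsClopen {y : G → ℤ | ∃ y' ∈ E, EqOn y' y F} := by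
  have key : ∀ y z : G → ℤ, z ∈ Nb (F.image fun x => (x, y x)) → EqOn y z F := by
    intro y z hz x hx
    exact (hz (x, y x) (by simp only [Finset.mem_image]; exact ⟨x, hx, rfl⟩)).symm
  have self : ∀ y : G → ℤ, y ∈ Nb (F.image fun x => (x, y x)) := by
    intro y p hp
    simp only [Finset.mem_image] at hp
    obtain ⟨x, _, rfl⟩ := hp
    rfl
  refine ⟨⟨isOpen_of_pat ?_⟩, isOpen_of_pat ?_⟩
  · intro y hy
    refine ⟨_, self y, ?_⟩
    intro z hz hc
    apply hy
    obtain ⟨y', h1, h2⟩ := hc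
    exact ⟨y', h1, h2.trans (key y z hz).symm⟩
  · rintro y ⟨y', h1, h2⟩
    refine ⟨_, self y, ?_⟩
    intro z hz
    exact ⟨y', h1, h2.trans (key y z hz)⟩

/-- `Op V ∪ Ext V` is countably dense and countably open. -/
lemma SD_OpExt (V : Set (Pat G)) : SD (Op V ∪ Ext V) := by
  intro C hC y
  by_cases h : ∃ y', EqOn y' y C ∧ y' ∈ Op V
  · obtain ⟨y', h1, s, hs, hy'⟩ := h
    refine ⟨C ∪ dom s, hC.union (dom_finite s).countable, subset_union_left, y', h1, ?_⟩
    intro y'' h2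
    exact Or.inl ⟨s, hs, Nb_congr (h2.mono subset_union_right) hy'⟩
  · refine ⟨C, hC, subset_rfl, y, fun x _ => rfl, ?_⟩
    intro y'' h2
    refine Or.inr ⟨C, hC, ?_⟩
    intro y' h3 h4
    exact h ⟨y', h3.trans h2, h4⟩

/-- Transport of `SD` along a bijection of the coordinates and a translation of the values. -/
lemma SD_transport {W : Set (G → ℤ)} (hW : SD W) (σ : Equiv.Perm G) (n : G → ℤ) :
    SD {y : G → ℤ | (fun x => y (σ x) - n x) ∈ W} := by
  intro C hC y
  obtain ⟨C', h1, h2, y', h3, h4⟩ := hW (σ ⁻¹' C) (hC.preimage σ.injective)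
    (fun x => y (σ x) - n x)
  refine ⟨σ '' C', h1.image _, ?_, fun x => y' (σ.symm x) + n (σ.symm x), ?_, ?_⟩
  · intro x hx
    exact ⟨σ.symm x, h2 (by simpa using hx), by simp⟩
  · intro x hx
    have := h3 (show σ.symm x ∈ σ ⁻¹' C by simpa using hx)
    simp only [Equiv.apply_symm_apply] at this
    simp only [this]
    ring
  · intro y'' h5
    apply h4
    intro x hx
    have := h5 (mem_image_of_mem σ hx)
    simp only [Equiv.symm_apply_apply] at this
    simp only [this]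
    ring

/-- `Ext V` is determined by any set which contains the coordinates of the members of `V`. -/
lemma Ext_congr {V : Set (Pat G)} {H : Set G} (hH : ∀ s ∈ V, dom s ⊆ H) {y y' : G → ℤ}
    (h : EqOn y y' H) (hy : y' ∈ Ext V) : y ∈ Ext V := by
  classical
  obtain ⟨C, hC, h1⟩ := hy
  refine ⟨C, hC, ?_⟩
  rintro z hz ⟨s, hs, hzs⟩
  refine h1 (fun x => if x ∈ H then z x else y' x) ?_ ⟨s, hs, ?_⟩
  · intro x hx
    by_cases hxH : x ∈ H
    · simp only [hxH, if_true]
      rw [hz hx, h hxH]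
    · simp only [hxH, if_false]
  · intro p hp
    have : p.1 ∈ H := hH s hs (mem_dom hp)
    simp only [this, if_true]
    exact hzs p hp

lemma Op_congr {V : Set (Pat G)} {H : Set G} (hH : ∀ s ∈ V, dom s ⊆ H) {y y' : G → ℤ}
    (h : EqOn y y' H) (hy : y' ∈ Op V) : y ∈ Op V := by
  obtain ⟨s, hs, h1⟩ := hy
  exact ⟨s, hs, Nb_congr (h.mono (hH s hs)) h1⟩

end Pool.H76.KO
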