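import Pool.Agent.H76.KO.Lin

/-! The normality criterion. -/

open Set Cardinal

namespace Pool.H76.KO

variable {G : Type}

lemma isClopen_code {c : (G → ℤ) → ℤ} (hc : Continuous c) {W : ℕ → Set (G → ℤ)}
    (hW : ∀ k, IsClopen (W k)) : IsClopen {y : G → ℤ | ∃ k : ℕ, c y = k + 1 ∧ y ∉ W k} := by
  constructor
  · rw [← isOpen_compl_iff]
    have : {y : G → ℤ | ∃ k : ℕ, c y = k + 1 ∧ y ∉ W k}ᶜ =
        c ⁻¹' (Iic 0) ∪ ⋃ k : ℕ, (c ⁻¹' {(k : ℤ) + 1} ∩ W k) := by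
      ext y
      simp only [mem_compl_iff, mem_setOf_eq, not_exists, not_and, not_not, mem_union,
        mem_preimage, mem_Iic, mem_iUnion, mem_inter_iff, mem_singleton_iff]
      constructor
      · intro h
        by_cases h0 : c y ≤ 0
        · exact Or.inl h0
        · right
          have h1 : c y = ((c y - 1).toNat : ℤ) + 1 := by omega
          exact ⟨_, h1, h _ h1⟩
      · rintro (h | ⟨k, hk, hW⟩) j hj
        · omega
        · have : k = j := by omega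
          rw [← this]; exact hW
    rw [this]
    refine ((isOpen_discrete _).preimage hc).union (isOpen_iUnion fun k => ?_)
    exact ((isOpen_discrete _).preimage hc).inter (hW k).isOpen
  · have : {y : G → ℤ | ∃ k : ℕ, c y = k + 1 ∧ y ∉ W k} =
        ⋃ k : ℕ, (c ⁻¹' {(k : ℤ) + 1} ∩ (W k)ᶜ) := by
      ext y
      simp
    rw [this]
    refine isOpen_iUnion fun k => ?_
    exact ((isOpen_discrete _).preimage hc).inter (hW k).compl.isOpen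

/-- The normality criterion. -/
theorem normal_of {R : Type} (r : R → G → ℤ) {κ : Cardinal.{0}} (hκ : ℵ₁ < κ)
    (hK : ∀ C : Set G, C.Countable → ∀ y : G → ℤ, ∃ g, EqOn (r g) y C)
    (hP : ∀ V : Set (Pat G), #V < κ →
      ∃ Z : Set R, #Z < κ ∧ ∀ g, g ∉ Z → r g ∈ Op V ∪ Ext V)
    (hN : ∀ Z : Set R, #Z < κ → ∀ n : R → ℤ,
      ∃ c : (G → ℤ) → ℤ, Continuous c ∧ ∀ g ∈ Z, c (r g) = n g) :
    NormalSpace (range r) := by
  classical
  have hκ₀ : ℵ₀ ≤ κ := (aleph0_le_aleph 1).trans hκ.le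
  have hunion : ∀ {α : Type} (A B : Set α), #A < κ → #B < κ → #(A ∪ B : Set α) < κ :=
    fun A B hA hB => (mk_union_le A B).trans_lt (add_lt_of_lt hκ₀ hA hB)
  refine ⟨fun s t hs ht hst => ?_⟩
  -- closed sets of the product
  obtain ⟨A, hA, rfl⟩ := isClosed_induced_iff.1 hs
  obtain ⟨B, hB, rfl⟩ := isClosed_induced_iff.1 ht
  have hAB : ∀ g, ¬ (r g ∈ A ∧ r g ∈ B) := by
    rintro g ⟨h1, h2⟩
    exact (Set.disjoint_left.1 hst) (a := ⟨r g, mem_range_self g⟩) h1 h2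
  let VA : Set (Pat G) := {s | ∀ g, r g ∈ A → r g ∉ Nb s}
  let VB : Set (Pat G) := {s | ∀ g, r g ∈ B → r g ∉ Nb s}
  have hcov : ∀ g, ∃ s ∈ VA ∪ VB, r g ∈ Nb s := by
    intro g
    by_cases hg : r g ∈ A
    · have hg' : r g ∈ Bᶜ := fun h => hAB g ⟨hg, h⟩
      obtain ⟨s, h1, h2⟩ := exists_pat hB.isOpen_compl hg'
      exact ⟨s, Or.inr fun g' hg' h => h2 h hg', h1⟩
    · obtain ⟨s, h1, h2⟩ := exists_pat hA.isOpen_compl (show r g ∈ Aᶜ from hg)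
      exact ⟨s, Or.inl fun g' hg' h => h2 h hg', h1⟩
  have hfull : Full (VA ∪ VB) := by
    intro C hC y
    obtain ⟨g, hg⟩ := hK C hC y
    obtain ⟨s, hs, h⟩ := hcov g
    exact ⟨r g, hg, s, hs, h⟩
  obtain ⟨V₁, hV₁, hV₁c, hV₁f⟩ := exists_full hfull
  have split : ∀ V : Set (Pat G), V ⊆ VA ∪ VB → V = (V ∩ VA) ∪ (V ∩ VB) := by
    intro V hV
    rw [← inter_union_distrib_left]
    exact (inter_eq_left.2 hV).symm
  have hsub : ∀ (V : Set (Pat G)), #V < κ → ∀ W : Set (Pat G), #(V ∩ W : Set (Pat G)) < κ :=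
    fun V hV W => (mk_le_mk_of_subset inter_subset_left).trans_lt hV
  have hV₁c' : #V₁ < κ := hV₁c.trans_lt hκ
  obtain ⟨Z₁, hZ₁, hZ₁A⟩ := hP _ (hsub V₁ hV₁c' VA)
  obtain ⟨Z₁', hZ₁', hZ₁B⟩ := hP _ (hsub V₁ hV₁c' VB)
  choose sg hsg hsg' using hcov
  let Z : Set R := Z₁ ∪ Z₁'
  have hZ : #Z < κ := hunion _ _ hZ₁ hZ₁'
  let V₂ : Set (Pat G) := V₁ ∪ sg '' Z
  have hV₂ : V₂ ⊆ VA ∪ VB := by
    rintro s (hs | ⟨g, _, rfl⟩)
    · exact hV₁ hs
    · exact hsg g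
  have hV₂c : #V₂ < κ := hunion _ _ hV₁c' (mk_image_le.trans_lt hZ)
  have hV₂f : Full V₂ := Full_mono subset_union_left hV₁f
  have hall : ∀ g, r g ∈ Op V₂ := by
    intro g
    by_cases hg : g ∈ Z
    · exact ⟨sg g, Or.inr (mem_image_of_mem _ hg), hsg' g⟩
    · have h1 : g ∉ Z₁ := fun h => hg (Or.inl h)
      have h2 : g ∉ Z₁' := fun h => hg (Or.inr h)
      have hf : Full ((V₁ ∩ VA) ∪ (V₁ ∩ VB)) := by rw [← split V₁ hV₁]; exact hV₁f
      rcases hZ₁A g h1 with h | h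
      · exact Op_mono (inter_subset_left.trans subset_union_left) h
      · rcases hZ₁B g h2 with h' | h'
        · exact Op_mono (inter_subset_left.trans subset_union_left) h'
        · exact (Ext_disjoint hf h h').elim
  let PA : Set (Pat G) := V₂ ∩ VA
  let PB : Set (Pat G) := V₂ ∩ VB
  have hPAB : V₂ = PA ∪ PB := split V₂ hV₂
  have hdisj : ∀ y, y ∈ Ext PA → y ∈ Ext PB → False := by
    intro y
    have hf : Full (PA ∪ PB) := by rw [← hPAB]; exact hV₂f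
    exact Ext_disjoint hf
  have hPA : ∀ g, r g ∈ A → r g ∉ Op PA := by
    rintro g hg ⟨s, hs, h⟩
    exact hs.2 g hg h
  have hPB : ∀ g, r g ∈ B → r g ∉ Op PB := by
    rintro g hg ⟨s, hs, h⟩
    exact hs.2 g hg h
  have hAE : ∀ g, r g ∈ A → r g ∉ Ext PB := by
    intro g hg h
    have := hall g
    rw [hPAB, Op_union] at this
    rcases this with h1 | h1
    · exact hPA g hg h1
    · exact Ext_not_Op h h1
  have hBE : ∀ g, r g ∈ B → r g ∉ Ext PA := by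
    intro g hg h
    have := hall g
    rw [hPAB, Op_union] at this
    rcases this with h1 | h1
    · exact Ext_not_Op h h1
    · exact hPB g hg h1
  obtain ⟨Z₂, hZ₂, hZ₂A⟩ := hP PA (hsub V₂ hV₂c VA)
  obtain ⟨Z₂', hZ₂', hZ₂B⟩ := hP PB (hsub V₂ hV₂c VB)
  let Y : Set R := Z₂ ∪ Z₂'
  have hY : #Y < κ := hunion _ _ hZ₂ hZ₂'
  have hYA : ∀ g, g ∉ Y → r g ∈ A → r g ∈ Ext PA := by
    intro g hg hgA
    rcases hZ₂A g fun h => hg (Or.inl h) with h | h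
    · exact (hPA g hgA h).elim
    · exact h
  have hYB : ∀ g, g ∉ Y → r g ∈ B → r g ∈ Ext PB := by
    intro g hg hgB
    rcases hZ₂B g fun h => hg (Or.inr h) with h | h
    · exact (hPB g hgB h).elim
    · exact h
  -- the clopen sets
  obtain ⟨FA, hFA⟩ := exists_seq PA
  obtain ⟨FB, hFB⟩ := exists_seq PB
  let a : ℕ → Set (G → ℤ) := fun k => {y | ∃ y' ∈ Ext PA, EqOn y' y (FA k)}
  let b : ℕ → Set (G → ℤ) := fun k => {y | ∃ y' ∈ Ext PB, EqOn y' y (FB k)}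
  have ha : ∀ k, IsClopen (a k) := fun k => isClopen_fin _ _
  have hb : ∀ k, IsClopen (b k) := fun k => isClopen_fin _ _
  have ha1 : ∀ y, y ∈ Ext PA → ∀ k, y ∈ a k := fun y hy k => ⟨y, hy, fun x _ => rfl⟩
  have hb1 : ∀ y, y ∈ Ext PB → ∀ k, y ∈ b k := fun y hy k => ⟨y, hy, fun x _ => rfl⟩
  have ha2 : ∀ y, y ∉ Ext PA → ∃ k, y ∉ a k := by
    intro y hy
    by_contra hcon
    push Not at hcon
    exact hy (hFA y hcon)
  have hb2 : ∀ y, y ∉ Ext PB → ∃ k, y ∉ b k := by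
    intro y hy
    by_contra hcon
    push Not at hcon
    exact hy (hFB y hcon)
  let N₁ : Set (G → ℤ) := {y | ∃ k, y ∉ b k ∧ ∀ j < k, y ∈ a j}
  let N₂ : Set (G → ℤ) := {y | ∃ k, y ∉ a k ∧ ∀ j ≤ k, y ∈ b j}
  have hN₁ : IsOpen N₁ := by
    have : N₁ = ⋃ k, ((b k)ᶜ ∩ ⋂ j ∈ Iio k, a j) := by
      ext y; simp [N₁]
    rw [this]
    refine isOpen_iUnion fun k => (hb k).compl.isOpen.inter ?_
    exact (finite_Iio k).isOpen_biInter fun j _ => (ha j).isOpen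
  have hN₂ : IsOpen N₂ := by
    have : N₂ = ⋃ k, ((a k)ᶜ ∩ ⋂ j ∈ Iic k, b j) := by
      ext y; simp [N₂]
    rw [this]
    refine isOpen_iUnion fun k => (ha k).compl.isOpen.inter ?_
    exact (finite_Iic k).isOpen_biInter fun j _ => (hb j).isOpen
  have hN₁₂ : ∀ y, y ∈ N₁ → y ∈ N₂ → False := by
    rintro y ⟨k, h1, h2⟩ ⟨l, h3, h4⟩
    rcases lt_or_ge l k with h | h
    · exact h3 (h2 l h)
    · exact h1 (h4 k h)
  have hNcov : ∀ y, y ∈ N₁ ∨ y ∈ N₂ := by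
    intro y
    by_cases hyA : y ∈ Ext PA
    · have hyB : y ∉ Ext PB := fun h => hdisj y hyA h
      obtain ⟨k, hk⟩ := hb2 y hyB
      exact Or.inl ⟨k, hk, fun j _ => ha1 y hyA j⟩
    · obtain hex := ha2 y hyA
      by_cases hex' : ∃ k, y ∉ b k ∧ k ≤ Nat.find hex
      · obtain ⟨k, h1, h2⟩ := hex'
        refine Or.inl ⟨k, h1, fun j hj => ?_⟩
        have := Nat.find_min hex (lt_of_lt_of_le hj h2)
        simpa using this
      · push Not at hex'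
        refine Or.inr ⟨Nat.find hex, Nat.find_spec hex, fun j hj => ?_⟩
        by_contra hjb
        exact absurd (hex' j hjb) (not_lt.2 hj)
  -- the codes of the exceptional rows
  have hn1 : ∀ g, ∃ n : ℤ, (r g ∈ A → n = 0) ∧ (r g ∈ B → ∃ k : ℕ, n = k + 1 ∧ r g ∉ a k) := by
    intro g
    by_cases hg : r g ∈ B
    · obtain ⟨k, hk⟩ := ha2 _ (hBE g hg)
      exact ⟨k + 1, fun h => (hAB g ⟨h, hg⟩).elim, fun _ => ⟨k, rfl, hk⟩⟩
    · exact ⟨0, fun _ => rfl, fun h => (hg h).elim⟩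
  have hn2 : ∀ g, ∃ n : ℤ, (r g ∈ B → n = 0) ∧ (r g ∈ A → ∃ k : ℕ, n = k + 1 ∧ r g ∉ b k) := by
    intro g
    by_cases hg : r g ∈ A
    · obtain ⟨k, hk⟩ := hb2 _ (hAE g hg)
      exact ⟨k + 1, fun h => (hAB g ⟨hg, h⟩).elim, fun _ => ⟨k, rfl, hk⟩⟩
    · exact ⟨0, fun _ => rfl, fun h => (hg h).elim⟩
  choose n₁ hn₁ hn₁' using hn1
  choose n₂ hn₂ hn₂' using hn2
  obtain ⟨c₁, hc₁, hcn₁⟩ := hN Y hY n₁
  obtain ⟨c₂, hc₂, hcn₂⟩ := hN Y hY n₂
  let T₁ : Set (G → ℤ) := {y | ∃ k : ℕ, c₁ y = k + 1 ∧ y ∉ a k}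
  let T₂ : Set (G → ℤ) := {y | ∃ k : ℕ, c₂ y = k + 1 ∧ y ∉ b k}
  have hT₁ : IsClopen T₁ := isClopen_code hc₁ ha
  have hT₂ : IsClopen T₂ := isClopen_code hc₂ hb
  refine ⟨Subtype.val ⁻¹' ((N₁ ∩ T₁ᶜ) ∪ (N₂ ∩ T₂)), Subtype.val ⁻¹' ((N₁ ∩ T₁) ∪ (N₂ ∩ T₂ᶜ)),
    ?_, ?_, ?_, ?_, ?_⟩
  · exact ((hN₁.inter hT₁.compl.isOpen).union (hN₂.inter hT₂.isOpen)).preimage
      continuous_subtype_val
  · exact ((hN₁.inter hT₁.isOpen).union (hN₂.inter hT₂.compl.isOpen)).preimage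
      continuous_subtype_val
  · rintro ⟨y, g, rfl⟩ (hy : r g ∈ A)
    rcases hNcov (r g) with h | h
    · refine Or.inl ⟨h, ?_⟩
      rintro ⟨k, h1, h2⟩
      by_cases hg : g ∈ Y
      · rw [hcn₁ g hg, hn₁ g hy] at h1
        omega
      · exact h2 (ha1 _ (hYA g hg hy) k)
    · refine Or.inr ⟨h, ?_⟩
      have hg : g ∈ Y := by
        by_contra hg
        obtain ⟨k, h1, _⟩ := h
        exact h1 (ha1 _ (hYA g hg hy) k)
      obtain ⟨k, h1, h2⟩ := hn₂' g hy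
      exact ⟨k, by rw [hcn₂ g hg, h1], h2⟩
  · rintro ⟨y, g, rfl⟩ (hy : r g ∈ B)
    rcases hNcov (r g) with h | h
    · refine Or.inl ⟨h, ?_⟩
      have hg : g ∈ Y := by
        by_contra hg
        obtain ⟨k, h1, _⟩ := h
        exact h1 (hb1 _ (hYB g hg hy) k)
      obtain ⟨k, h1, h2⟩ := hn₁' g hy
      exact ⟨k, by rw [hcn₁ g hg, h1], h2⟩
    · refine Or.inr ⟨h, ?_⟩
      rintro ⟨k, h1, h2⟩
      by_cases hg : g ∈ Y
      · rw [hcn₂ g hg, hn₂ g hy] at h1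
        omega
      · exact h2 (hb1 _ (hYB g hg hy) k)
  · rw [Set.disjoint_left]
    rintro ⟨y, hy⟩ (⟨h1, h2⟩ | ⟨h1, h2⟩) (⟨h3, h4⟩ | ⟨h3, h4⟩)
    · exact h2 h4
    · exact hN₁₂ y h1 h3
    · exact hN₁₂ y h3 h1
    · exact h4 h2

end Pool.H76.KO
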