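import Pool.Agent.H76.KO.Baire
import Pool.Agent.H76.KO.Nor

/-! The construction. -/

open Set Cardinal

namespace Pool.H76.KO

/-- The hypothesis on the cardinal. -/
structure Hyp (κ : Cardinal.{0}) : Prop where
  reg : κ.IsRegular
  gt : ℵ₁ < κ
  pow : ∀ μ : Cardinal.{0}, μ < κ → 2 ^ μ ≤ κ
  ba : ∀ (E J : Type), #J < κ → ∀ (V : J → Set (Pat E)) (σ : J → Equiv.Perm E) (n : J → E → ℤ)
    (C₀ : Set E), C₀.Countable → ∀ y₀ : E → ℤ, ∃ y, EqOn y y₀ C₀ ∧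
      ∀ j, (fun x => y (σ j x) - n j x) ∈ Op (V j) ∪ Ext (V j)

/-- The index set, of order type the initial ordinal of `κ`. -/
abbrev I2 (κ : Cardinal.{0}) : Type := κ.ord.ToType

/-- The group, written additively. -/
abbrev K2 (κ : Cardinal.{0}) : Type := I2 κ →₀ ZMod 3

variable {κ : Cardinal.{0}}

/-- The elements supported below a level. -/
def Gs (ξ : I2 κ) : Set (K2 κ) := {g | ∀ i ∈ g.support, i < ξ}

lemma mk_I2 : #(I2 κ) = κ := by rw [mk_toType, card_ord]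

open Classical in
/-- Coding of group elements by patterns. -/
noncomputable def code (g : K2 κ) : Pat (I2 κ) := g.support.image fun i => (i, ((g i).val : ℤ))

lemma mem_code {g : K2 κ} {p : I2 κ × ℤ} :
    p ∈ code g ↔ p.1 ∈ g.support ∧ ((g p.1).val : ℤ) = p.2 := by
  classical
  simp only [code, Finset.mem_image]
  constructor
  · rintro ⟨i, hi, rfl⟩; exact ⟨hi, rfl⟩
  · rintro ⟨h1, h2⟩; exact ⟨p.1, h1, by rw [h2]⟩

lemma code_injective : Function.Injective (code (κ := κ)) := by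
  have key : ∀ g g' : K2 κ, code g = code g' → ∀ i, i ∈ g.support → g i = g' i := by
    intro g g' h i hi
    have h1 : ((i, ((g i).val : ℤ)) : I2 κ × ℤ) ∈ code g := mem_code.2 ⟨hi, rfl⟩
    rw [h] at h1
    have h2 := (mem_code.1 h1).2
    simp only [Nat.cast_inj] at h2
    exact (ZMod.val_injective 3 h2).symm
  intro g g' h
  ext i
  by_cases hi : i ∈ g.support
  · exact key g g' h i hi
  · by_cases hi' : i ∈ g'.support
    · exact (key g' g h.symm i hi').symm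
    · rw [Finsupp.notMem_support_iff.1 hi, Finsupp.notMem_support_iff.1 hi']

lemma dom_code (g : K2 κ) : dom (code g) ⊆ g.support := by
  rintro x ⟨p, hp, rfl⟩
  exact (mem_code.1 hp).1

lemma mk_pat_le_max {E : Type} (H : Set E) : #{t : Pat E | dom t ⊆ H} ≤ max #H ℵ₀ :=
  mk_pat_le (le_max_right _ _) (le_max_left _ _)

lemma mk_K2_le : #(K2 κ) ≤ max κ ℵ₀ := by
  have h2 := mk_pat_le_max (univ : Set (I2 κ))
  rw [mk_univ, mk_I2] at h2
  rw [← mk_univ, ← mk_image_eq code_injective (s := univ)]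
  exact (mk_le_mk_of_subset fun _ _ => subset_univ _).trans h2

lemma le_mk_K2 : κ ≤ #(K2 κ) := by
  have : Function.Injective fun i : I2 κ => (Finsupp.single i (1 : ZMod 3) : K2 κ) :=
    Finsupp.single_left_injective one_ne_zero
  have h := mk_le_of_injective this
  rwa [mk_I2] at h

lemma Gs_mono {ζ ξ : I2 κ} (h : ζ ≤ ξ) : Gs ζ ⊆ Gs ξ :=
  fun _ hg i hi => lt_of_lt_of_le (hg i hi) h

lemma Gs_add {ξ : I2 κ} {g h : K2 κ} (hg : g ∈ Gs ξ) (hh : h ∈ Gs ξ) : g + h ∈ Gs ξ := by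
  classical
  intro i hi
  rcases Finset.mem_union.1 (Finsupp.support_add hi) with h1 | h1
  · exact hg i h1
  · exact hh i h1

namespace Hyp

variable (hκ : Hyp κ)

include hκ

lemma le0 : ℵ₀ ≤ κ := (aleph0_le_aleph 1).trans hκ.gt.le

lemma mk_K2 : #(K2 κ) = κ :=
  le_antisymm (mk_K2_le.trans (max_le le_rfl hκ.le0)) le_mk_K2

lemma mk_Gs_lt (ξ : I2 κ) : #(Gs ξ) < κ := by
  have h1 : #(Iio ξ) < κ := mk_Iio_toType_ord_lt ξ
  have h2 := mk_pat_le_max (Iio ξ)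
  rw [← mk_image_eq code_injective (s := Gs ξ)]
  refine (mk_le_mk_of_subset ?_).trans_lt (h2.trans_lt (max_lt h1 ?_))
  · rintro _ ⟨g, hg, rfl⟩ i hi
    exact hg i (dom_code g hi)
  · exact (aleph0_le_aleph 1).trans_lt hκ.gt

lemma bounded {Z : Set (I2 κ)} (hZ : #Z < κ) : ∃ i, ∀ j ∈ Z, j < i := by
  have h1 : ¬ IsCofinal Z := by
    intro h
    have h2 := Order.cof_le h
    rw [Ordinal.cof_toType, hκ.reg.cof_ord] at h2
    exact absurd h2 (not_le.2 hZ)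
  exact not_isCofinal_iff.1 h1

lemma countable_lt {α : Type} {Z : Set α} (hZ : Z.Countable) : #Z < κ :=
  hZ.le_aleph0.trans_lt ((aleph0_le_aleph 1).trans_lt hκ.gt)

lemma exists_gt2 (i j : I2 κ) : ∃ k, i < k ∧ j < k := by
  obtain ⟨k, hk⟩ := hκ.bounded (hκ.countable_lt (((finite_singleton j).insert i).countable))
  exact ⟨k, hk i (by simp), hk j (by simp)⟩

lemma exists_lev (g : K2 κ) : ∃ i, g ∈ Gs i := by
  obtain ⟨k, hk⟩ := hκ.bounded (hκ.countable_lt (g.support.finite_toSet.countable))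
  exact ⟨k, fun i hi => hk i hi⟩

lemma exists_level {Z : Set (K2 κ)} (hZ : #Z < κ) : ∃ ζ, Z ⊆ Gs ζ := by
  choose lev hlev using hκ.exists_lev
  obtain ⟨ζ, hζ⟩ := hκ.bounded (Z := lev '' Z) (mk_image_le.trans_lt hZ)
  exact ⟨ζ, fun g hg => Gs_mono (hζ _ (mem_image_of_mem _ hg)).le (hlev g)⟩

lemma exists_level_pat {V : Set (Pat (K2 κ))} (hV : #V < κ) : ∃ ζ, ∀ s ∈ V, dom s ⊆ Gs ζ := by
  have h1 : ∀ s : Pat (K2 κ), ∃ ζ, dom s ⊆ Gs ζ := fun s =>
    hκ.exists_level (hκ.countable_lt (dom_finite s).countable)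
  choose lev hlev using h1
  obtain ⟨ζ, hζ⟩ := hκ.bounded (Z := lev '' V) (mk_image_le.trans_lt hV)
  exact ⟨ζ, fun s hs => (hlev s).trans (Gs_mono (hζ _ (mem_image_of_mem _ hs)).le)⟩

lemma nonempty_I2 : Nonempty (I2 κ) := by
  obtain ⟨i, _⟩ := hκ.bounded (Z := ∅) (hκ.countable_lt countable_empty)
  exact ⟨i⟩

lemma exists_enum {α : Type} [Nonempty α] (h : #α ≤ κ) :
    ∃ e : I2 κ → α, Function.Surjective e := by
  rw [← mk_I2 (κ := κ)] at h
  obtain ⟨g⟩ := h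
  exact ⟨Function.invFun g, Function.invFun_surjective g.injective⟩

/-- Every value of the first component of a surjection onto `α × I2 κ` occurs cofinally. -/
lemma exists_occ {α : Type} {e : I2 κ → α × I2 κ} (he : Function.Surjective e) (a : α)
    (ζ : I2 κ) : ∃ ξ, ζ ≤ ξ ∧ (e ξ).1 = a := by
  by_contra hcon
  push Not at hcon
  choose s hs using fun i : I2 κ => he (a, i)
  have h1 : ∀ i, s i < ζ := by
    intro i
    by_contra h
    exact hcon (s i) (not_lt.1 h) (by rw [hs])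
  have h2 : Function.Injective fun i : I2 κ => (⟨s i, h1 i⟩ : Iio ζ) := by
    intro i j hij
    have : s i = s j := congrArg Subtype.val hij
    have h3 : (a, i) = (a, j) := by rw [← hs i, ← hs j, this]
    exact (Prod.mk.inj h3).2
  have h4 := mk_le_of_injective h2
  have h5 : #(Iio ζ) < κ := mk_Iio_toType_ord_lt ζ
  rw [mk_I2] at h4
  exact absurd h4 (not_le.2 h5)

lemma mk_prod_le {α β : Type} (hα : #α ≤ κ) (hβ : #β ≤ κ) : #(α × β) ≤ κ := by
  rw [mk_prod, lift_id, lift_id]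
  exact mul_le_of_le hκ.le0 hα hβ

lemma mk_sigma_le {α : I2 κ → Type} (hα : ∀ i, #(α i) ≤ κ) : #(Σ i, α i) ≤ κ := by
  rw [mk_sigma]
  refine (sum_le_mk_mul_iSup _).trans ?_
  rw [mk_I2]
  exact mul_le_of_le hκ.le0 le_rfl (ciSup_le' hα)

lemma mk_set_le {α : Type} (hα : #α < κ) : #(Set α) ≤ κ := by
  rw [mk_set]
  exact hκ.pow _ hα

lemma mk_fun_le {α : Type} (hα : #α < κ) : #(α → ℤ) ≤ κ := by
  have h1 : #(α × ℤ) < κ := by
    rw [mk_prod, lift_id, lift_id]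
    exact mul_lt_of_lt hκ.le0 hα ((mk_le_aleph0 (α := ℤ)).trans_lt
      ((aleph0_le_aleph 1).trans_lt hκ.gt))
  refine le_trans ?_ (hκ.mk_set_le h1)
  refine mk_le_of_injective (f := fun y : α → ℤ => {p : α × ℤ | y p.1 = p.2}) ?_
  intro y z h
  funext a
  have h2 : ((a, y a) : α × ℤ) ∈ {p : α × ℤ | y p.1 = p.2} := rfl
  have h' : {p : α × ℤ | y p.1 = p.2} = {p : α × ℤ | z p.1 = p.2} := h
  rw [h'] at h2
  exact h2.symm

/-- The list of the small families of patterns. -/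
lemma exists_eO : ∃ eO : I2 κ → Set (Pat (K2 κ)), ∀ V : Set (Pat (K2 κ)), #V < κ →
    ∃ η, eO η = V := by
  have h1 : ∀ ζ : I2 κ, #(Set {t : Pat (K2 κ) | dom t ⊆ Gs ζ}) ≤ κ := by
    intro ζ
    apply hκ.mk_set_le
    exact (mk_pat_le_max _).trans_lt (max_lt (hκ.mk_Gs_lt ζ)
      ((aleph0_le_aleph 1).trans_lt hκ.gt))
  have := hκ.nonempty_I2
  have : Nonempty (Σ ζ : I2 κ, Set {t : Pat (K2 κ) | dom t ⊆ Gs ζ}) :=
    ⟨⟨Classical.arbitrary _, ∅⟩⟩
  obtain ⟨e, he⟩ := hκ.exists_enum (hκ.mk_sigma_le h1)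
  refine ⟨fun η => Subtype.val '' (e η).2, fun V hV => ?_⟩
  obtain ⟨ζ, hζ⟩ := hκ.exists_level_pat hV
  obtain ⟨η, hη⟩ := he ⟨ζ, {t | t.1 ∈ V}⟩
  refine ⟨η, ?_⟩
  show (Subtype.val '' (e η).2 : Set (Pat (K2 κ))) = V
  rw [hη]
  ext s
  constructor
  · rintro ⟨t, ht, rfl⟩; exact ht
  · intro hs
    exact ⟨⟨s, hζ s hs⟩, hs, rfl⟩

/-- The list of the small functions and countable sets. -/
lemma exists_eN : ∃ (eN : I2 κ → K2 κ → ℤ) (eC : I2 κ → Set (K2 κ)),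
    (∀ ξ, (eC ξ).Countable) ∧ ∀ Z : Set (K2 κ), #Z < κ → ∀ C : Set (K2 κ), C.Countable →
      ∀ (n : K2 κ → ℤ) (ζ : I2 κ), ∃ ξ, ζ ≤ ξ ∧ EqOn (eN ξ) n Z ∧ C ⊆ eC ξ := by
  classical
  have h1 : ∀ ζ : I2 κ, #((Gs ζ → ℤ) × Set (Gs ζ)) ≤ κ := fun ζ =>
    hκ.mk_prod_le (hκ.mk_fun_le (hκ.mk_Gs_lt ζ)) (hκ.mk_set_le (hκ.mk_Gs_lt ζ))
  have := hκ.nonempty_I2
  have : Nonempty ((Σ ζ : I2 κ, (Gs ζ → ℤ) × Set (Gs ζ)) × I2 κ) :=
    ⟨(⟨Classical.arbitrary _, fun _ => 0, ∅⟩, Classical.arbitrary _)⟩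
  obtain ⟨e, he⟩ := hκ.exists_enum (hκ.mk_prod_le (hκ.mk_sigma_le h1) mk_I2.le)
  refine ⟨fun ξ x => if h : x ∈ Gs (e ξ).1.1 then (e ξ).1.2.1 ⟨x, h⟩ else 0,
    fun ξ => if (Subtype.val '' (e ξ).1.2.2 : Set (K2 κ)).Countable then
      Subtype.val '' (e ξ).1.2.2 else ∅, ?_, ?_⟩
  · intro ξ
    simp only
    split_ifs with h
    · exact h
    · exact countable_empty
  · intro Z hZ C hC n ζ
    obtain ⟨ζ', hζ'⟩ := hκ.exists_level (Z := Z ∪ C) ((mk_union_le _ _).trans_lt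
      (add_lt_of_lt hκ.le0 hZ (hκ.countable_lt hC)))
    obtain ⟨ξ, hξ, hξe⟩ := hκ.exists_occ he ⟨ζ', (fun x => n x.1, {x | x.1 ∈ C})⟩ ζ
    refine ⟨ξ, hξ, ?_, ?_⟩
    · intro x hx
      have hx' : x ∈ Gs (e ξ).1.1 := by rw [hξe]; exact hζ' (Or.inl hx)
      simp only [dif_pos hx']
      have : ∀ (a : Σ ζ : I2 κ, (Gs ζ → ℤ) × Set (Gs ζ)) (h : x ∈ Gs a.1),
          a = ⟨ζ', (fun x => n x.1, {x | x.1 ∈ C})⟩ → a.2.1 ⟨x, h⟩ = n x := by
        rintro a h rfl; rfl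
      exact this _ hx' hξe
    · have h2 : (Subtype.val '' (e ξ).1.2.2 : Set (K2 κ)) = C := by
        rw [hξe]
        ext x; constructor
        · rintro ⟨z, hz, rfl⟩; exact hz
        · intro hx; exact ⟨⟨x, hζ' (Or.inr hx)⟩, hx, rfl⟩
      simp only [h2, if_pos hC]
      exact subset_rfl

end Hyp

/-- The data of the construction. -/
structure Data (κ : Cardinal.{0}) where
  /-- the list of the open sets -/
  eO : I2 κ → Set (Pat (K2 κ))
  /-- the list of the functions -/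
  eN : I2 κ → K2 κ → ℤ
  /-- the list of the countable sets -/
  eC : I2 κ → Set (K2 κ)
  /-- the new values -/
  F : I2 κ → K2 κ → ℤ
  listO : ∀ V : Set (Pat (K2 κ)), #V < κ → ∃ η, eO η = V
  listN : ∀ Z : Set (K2 κ), #Z < κ → ∀ C : Set (K2 κ), C.Countable →
      ∀ (n : K2 κ → ℤ) (ζ : I2 κ), ∃ ξ, ζ ≤ ξ ∧ EqOn (eN ξ) n Z ∧ C ⊆ eC ξ
  pat : ∀ ξ, EqOn (F ξ) (eN ξ) (eC ξ)
  gen1 : ∀ ξ η, η < ξ → ∀ z ∈ Gs ξ, (fun x => F ξ (x + z)) ∈ Op (eO η) ∪ Ext (eO η)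
  gen2 : ∀ ξ η, η < ξ → ∀ z ∈ Gs ξ,
    (fun x => F ξ (x + z) - eN ξ (x + z)) ∈ Op (eO η) ∪ Ext (eO η)

lemma Hyp.exists_data (hκ : Hyp κ) : Nonempty (Data κ) := by
  classical
  obtain ⟨eO, listO⟩ := hκ.exists_eO
  obtain ⟨eN, eC, hC, listN⟩ := hκ.exists_eN
  have key : ∀ ξ : I2 κ, ∃ E : K2 κ → ℤ, EqOn E (eN ξ) (eC ξ) ∧
      ∀ j : ({η : I2 κ // η < ξ} × Gs ξ) × Bool,
        (fun x => E (Equiv.addRight j.1.2.1 x) -
          (if j.2 then eN ξ (x + j.1.2.1) else 0)) ∈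
          Op (eO j.1.1.1) ∪ Ext (eO j.1.1.1) := by
    intro ξ
    have hJ : #(({η : I2 κ // η < ξ} × Gs ξ) × Bool) < κ := by
      have h1 : #{η : I2 κ // η < ξ} < κ := mk_Iio_toType_ord_lt ξ
      have h2 : #(Gs ξ) < κ := hκ.mk_Gs_lt ξ
      rw [mk_prod, mk_prod, lift_id, lift_id, lift_id, lift_id]
      exact mul_lt_of_lt hκ.le0 (mul_lt_of_lt hκ.le0 h1 h2)
        ((mk_le_aleph0 (α := Bool)).trans_lt ((aleph0_le_aleph 1).trans_lt hκ.gt))
    exact hκ.ba (K2 κ) _ hJ (fun j => eO j.1.1.1) (fun j => Equiv.addRight j.1.2.1)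
      (fun j x => if j.2 then eN ξ (x + j.1.2.1) else 0) (eC ξ) (hC ξ) (eN ξ)
  choose F hF1 hF2 using key
  refine ⟨⟨eO, eN, eC, F, listO, listN, hF1, ?_, ?_⟩⟩
  · intro ξ η hη z hz
    have := hF2 ξ ((⟨η, hη⟩, ⟨z, hz⟩), false)
    simpa using this
  · intro ξ η hη z hz
    have := hF2 ξ ((⟨η, hη⟩, ⟨z, hz⟩), true)
    simpa using this

namespace Data

variable (D : Data κ)

open Classical in
/-- The function with a normal orbit. -/
noncomputable def f (g : K2 κ) : ℤ :=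
  if h : g.support.Nonempty then
    D.F (g.support.max' h) (g.erase (g.support.max' h)) -
      (if g (g.support.max' h) = 1 then 0 else
        D.eN (g.support.max' h) (g.erase (g.support.max' h)))
  else 0

lemma f_eq {ξ : I2 κ} {z : K2 κ} (hz : z ∈ Gs ξ) {v : ZMod 3} (hv : v ≠ 0) :
    D.f (z + Finsupp.single ξ v) = D.F ξ z - (if v = 1 then 0 else D.eN ξ z) := by
  classical
  set g := z + Finsupp.single ξ v with hg
  have hzξ : z ξ = 0 := by
    by_contra h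
    exact absurd (hz ξ (Finsupp.mem_support_iff.2 h)) (lt_irrefl _)
  have hgξ : g ξ = v := by simp [hg, hzξ]
  have hmem : ξ ∈ g.support := by
    rw [Finsupp.mem_support_iff, hgξ]; exact hv
  have hne : g.support.Nonempty := ⟨ξ, hmem⟩
  have hle : ∀ i ∈ g.support, i ≤ ξ := by
    intro i hi
    rcases Finset.mem_union.1 (Finsupp.support_add hi) with h1 | h1
    · exact (hz i h1).le
    · have := Finsupp.support_single_subset h1
      rw [Finset.mem_singleton] at this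
      exact this.le
  have hmax : g.support.max' hne = ξ :=
    le_antisymm (Finset.max'_le _ _ _ hle) (Finset.le_max' _ _ hmem)
  have herase : g.erase ξ = z := by
    ext i
    by_cases hi : i = ξ
    · rw [hi, Finsupp.erase_same, hzξ]
    · rw [Finsupp.erase_ne hi, hg, Finsupp.add_apply, Finsupp.single_eq_of_ne hi, add_zero]
  simp only [f, dif_pos hne]
  rw [hmax, herase, hgξ]

/-- The row of an element. -/
noncomputable def r (g : K2 κ) : K2 κ → ℤ := fun x => D.f (x + g)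

lemma r_single {ξ : I2 κ} {g x : K2 κ} (hg : g ∈ Gs ξ) (hx : x ∈ Gs ξ) {v : ZMod 3}
    (hv : v ≠ 0) : D.r (g + Finsupp.single ξ v) x =
      D.F ξ (x + g) - (if v = 1 then 0 else D.eN ξ (x + g)) := by
  rw [r, ← add_assoc]
  exact D.f_eq (Gs_add hx hg) hv

variable (hκ : Hyp κ)

include hκ

lemma korovin (C : Set (K2 κ)) (hC : C.Countable) (y : K2 κ → ℤ) :
    ∃ g, EqOn (D.r g) y C := by
  obtain ⟨ζ, hζ⟩ := hκ.exists_level (hκ.countable_lt hC)
  obtain ⟨ξ, hξ, hn, hCξ⟩ := D.listN C (hκ.countable_lt hC) C hC y ζ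
  refine ⟨Finsupp.single ξ 1, fun x hx => ?_⟩
  have hxξ : x ∈ Gs ξ := Gs_mono hξ (hζ hx)
  have h0 : D.r (Finsupp.single ξ 1) x = D.F ξ x := by
    have := D.f_eq hxξ (v := 1) one_ne_zero
    rw [r, this]; simp
  rw [h0, D.pat ξ (hCξ hx), hn hx]

lemma generic (V : Set (Pat (K2 κ))) (hV : #V < κ) :
    ∃ Z : Set (K2 κ), #Z < κ ∧ ∀ g, g ∉ Z → D.r g ∈ Op V ∪ Ext V := by
  classical
  obtain ⟨η, rfl⟩ := D.listO V hV
  obtain ⟨ζ, hζ⟩ := hκ.exists_level_pat hV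
  obtain ⟨ξ₀, hη, hζ'⟩ := hκ.exists_gt2 η ζ
  refine ⟨Gs ξ₀, hκ.mk_Gs_lt _, fun g hg => ?_⟩
  have hg' : ∃ i ∈ g.support, ξ₀ ≤ i := by
    by_contra hcon
    push Not at hcon
    exact hg hcon
  obtain ⟨i, hi, hi'⟩ := hg'
  have hne' : g.support.Nonempty := ⟨i, hi⟩
  set ξ := g.support.max' hne' with hξ
  have hξ₀ : ξ₀ ≤ ξ := hi'.trans (Finset.le_max' _ _ hi)
  have hξs : ξ ∈ g.support := Finset.max'_mem _ _
  have hz : g.erase ξ ∈ Gs ξ := by
    intro j hj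
    rw [Finsupp.support_erase, Finset.mem_erase] at hj
    exact lt_of_le_of_ne (Finset.le_max' _ _ hj.2) hj.1
  have hv : g ξ ≠ 0 := Finsupp.mem_support_iff.1 hξs
  have hgd : g.erase ξ + Finsupp.single ξ (g ξ) = g := Finsupp.erase_add_single ξ g
  have hdom : ∀ s ∈ D.eO η, dom s ⊆ Gs ξ := fun s hs =>
    (hζ s hs).trans (Gs_mono (hζ'.le.trans hξ₀))
  by_cases hv1 : g ξ = 1
  · have heq : EqOn (D.r g) (fun x => D.F ξ (x + g.erase ξ)) (Gs ξ) := by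
      intro x hx
      rw [← hgd, D.r_single hz hx hv]
      simp [hv1]
    rcases D.gen1 ξ η (lt_of_lt_of_le hη hξ₀) _ hz with h | h
    · exact Or.inl (Op_congr hdom heq h)
    · exact Or.inr (Ext_congr hdom heq h)
  · have heq : EqOn (D.r g) (fun x => D.F ξ (x + g.erase ξ) -
        D.eN ξ (x + g.erase ξ)) (Gs ξ) := by
      intro x hx
      rw [← hgd, D.r_single hz hx hv]
      simp [hv1]
    rcases D.gen2 ξ η (lt_of_lt_of_le hη hξ₀) _ hz with h | h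
    · exact Or.inl (Op_congr hdom heq h)
    · exact Or.inr (Ext_congr hdom heq h)

lemma separate (Z : Set (K2 κ)) (hZ : #Z < κ) (n : K2 κ → ℤ) :
    ∃ c : (K2 κ → ℤ) → ℤ, Continuous c ∧ ∀ g ∈ Z, c (D.r g) = n g := by
  obtain ⟨ζ, hζ⟩ := hκ.exists_level hZ
  obtain ⟨ξ, hξ, hn, _⟩ := D.listN Z hZ ∅ countable_empty n ζ
  refine ⟨fun y => y (Finsupp.single ξ 1) - y (Finsupp.single ξ 2),
    (continuous_apply _).sub (continuous_apply _), fun g hg => ?_⟩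
  have hgξ : g ∈ Gs ξ := Gs_mono hξ (hζ hg)
  have h1 : D.r g (Finsupp.single ξ 1) = D.F ξ g := by
    have := D.f_eq hgξ (v := 1) one_ne_zero
    rw [r, add_comm, this]; simp
  have h2 : D.r g (Finsupp.single ξ 2) = D.F ξ g - D.eN ξ g := by
    have := D.f_eq hgξ (v := 2) (by decide)
    rw [r, add_comm, this]
    have h3 : (2 : ZMod 3) ≠ 1 := by decide
    simp [h3]
  simp only [h1, h2]
  rw [hn hg]
  ring

theorem normal : NormalSpace (range D.r) :=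
  normal_of D.r hκ.gt (D.korovin hκ) (D.generic hκ) (D.separate hκ)

end Data

end Pool.H76.KO
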