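import Pool.Agent.H76.KO.Basic

/-! Cardinal facts about the well ordered types of a regular cardinal. -/

open Set Cardinal

namespace Pool.H76.KO

lemma W1_countable_Iio (i : W1) : (Iio i).Countable := by
  have h1 : #(Iio i) < ℵ₁ := mk_Iio_toType_ord_lt i
  have h2 : (ℵ₁ : Cardinal.{0}) = Order.succ ℵ₀ := succ_aleph0.symm
  rw [← le_aleph0_iff_set_countable]
  exact Order.lt_succ_iff.mp (lt_of_lt_of_eq h1 h2)

lemma W1_countable_Iic (i : W1) : (Iic i).Countable := by
  have : (Iic i : Set W1) = Iio i ∪ {i} := by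
    ext x; simp [le_iff_lt_or_eq]
  rw [this]
  exact (W1_countable_Iio i).union (countable_singleton i)

lemma mk_W1 : #W1 = ℵ₁ := by rw [mk_toType, card_ord]

lemma W1_bounded {Z : Set W1} (hZ : Z.Countable) : ∃ i, ∀ j ∈ Z, j < i := by
  by_contra hcon
  push Not at hcon
  have h1 : (univ : Set W1) ⊆ ⋃ j ∈ Z, Iic j := by
    intro i _
    obtain ⟨j, hj, hij⟩ := hcon i
    exact mem_iUnion₂.2 ⟨j, hj, hij⟩
  have h2 : (univ : Set W1).Countable :=
    (hZ.biUnion fun j _ => W1_countable_Iic j).mono h1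
  rw [← le_aleph0_iff_set_countable, mk_univ, mk_W1] at h2
  exact absurd h2 (not_le.mpr aleph0_lt_aleph_one)

instance : Nonempty W1 := by
  obtain ⟨i, _⟩ := W1_bounded (Z := ∅) countable_empty
  exact ⟨i⟩

/-- A nonempty type with at most `ℵ₁` elements is an image of `W1`. -/
lemma exists_surj {J : Type} [Nonempty J] (hJ : #J ≤ ℵ₁) :
    ∃ e : W1 → J, Function.Surjective e := by
  rw [← mk_W1] at hJ
  obtain ⟨g⟩ := hJ
  exact ⟨Function.invFun g, Function.invFun_surjective g.injective⟩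

lemma mk_image_fin_le {α β : Type} {Z : Set α} (hZ : #Z ≤ ℵ₁) (F : α → Set β)
    (hF : ∀ a, (F a).Countable) : #(⋃ a ∈ Z, F a : Set β) ≤ ℵ₁ := by
  have : (⋃ a ∈ Z, F a : Set β) = ⋃ a : Z, F a := by
    ext x; simp
  rw [this]
  refine (mk_iUnion_le _).trans ?_
  refine (mul_le_mul' hZ (ciSup_le' (a := ℵ₁) fun j => ?_)).trans ?_
  · exact (le_aleph0_iff_set_countable.mpr (hF _)).trans (aleph0_le_aleph 1)
  · exact (mul_eq_self (aleph0_le_aleph 1)).le

end Pool.H76.KO
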