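import Pool.Agent.H76.KO.Hyps

/-! Normal Korovin orbits. -/

open Set Cardinal

namespace Pool.H76.KO

/-- Under the hypothesis on `κ` there is a normal Korovin orbit of a group of cardinality `κ`. -/
theorem exists_normal {κ : Cardinal.{0}} (hκ : Hyp κ) :
    ∃ (G : Type) (_ : CommGroup G) (f : G → ℤ), #G = κ ∧ 2 ^ ℵ₀ ≤ #G ∧
      (∀ M : Set G, M.Countable → ∀ r : G → ℤ, ∃ g : G, ∀ m ∈ M, f (m * g) = r m) ∧
      T4Space (range fun g : G => fun x : G => f (x * g)) := by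
  obtain ⟨D⟩ := hκ.exists_data
  have hn : NormalSpace (range D.r) := D.normal hκ
  refine ⟨Multiplicative (K2 κ), inferInstance, fun g => D.f (Multiplicative.toAdd g), ?_, ?_,
    ?_, ?_⟩
  · exact hκ.mk_K2
  · have h1 : (2 : Cardinal.{0}) ^ ℵ₀ ≤ κ :=
      hκ.pow _ ((aleph0_le_aleph 1).trans_lt hκ.gt)
    exact h1.trans (le_of_eq hκ.mk_K2.symm)
  · intro M hM r
    obtain ⟨g, hg⟩ := D.korovin hκ M hM r
    exact ⟨g, fun m hm => hg hm⟩
  · have ht : T1Space (range D.r) := inferInstance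
    exact @T4Space.mk (range D.r) _ ht hn

end Pool.H76.KO
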