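import Pool.Agent.H76.KO.Sens

/-! A Korovin orbit which realises all patterns of size `ℵ₁` is not normal. -/

open Set Cardinal

universe u v

namespace Pool.H76.KO.Non

variable {G : Type u} {X : Type v} [CommGroup G] [TopologicalSpace X]

section Blocks

variable (f : G → X) (q : ℕ → G) (H : Subgroup G)

/-- The pattern which puts block `c` in state `σ c`. -/
noncomputable def pt (σ : G ⧸ H → ℕ) (x : G) : X :=
  f (x * (Quotient.out (QuotientGroup.mk x : G ⧸ H))⁻¹ * q (σ (QuotientGroup.mk x)))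

lemma pt_congr {σ τ : G ⧸ H → ℕ} {x : G} (h : σ (QuotientGroup.mk x) = τ (QuotientGroup.mk x)) :
    pt f q H σ x = pt f q H τ x := by
  simp only [pt, h]

/-- The translation of the orbit which moves block `c` to the block `H`. -/
noncomputable def tr (c : G ⧸ H) (y : range (row f)) : range (row f) :=
  ⟨fun x => y.1 (x * Quotient.out c), by
    obtain ⟨g, hg⟩ := y.2
    refine ⟨Quotient.out c * g, ?_⟩
    rw [← hg]
    funext x
    show f (x * (Quotient.out c * g)) = f (x * Quotient.out c * g)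
    rw [mul_assoc]⟩

lemma continuous_tr (c : G ⧸ H) : Continuous (tr f H c) := by
  have h : Continuous fun y : range (row f) => fun x : G => y.1 (x * Quotient.out c) :=
    continuous_pi fun x => (continuous_apply (x * Quotient.out c)).comp continuous_subtype_val
  exact h.subtype_mk _

lemma mk_mul_out {x : G} (hx : x ∈ H) (c : G ⧸ H) :
    (QuotientGroup.mk (x * Quotient.out c) : G ⧸ H) = c := by
  rw [QuotientGroup.mk_mul, (QuotientGroup.eq_one_iff x).2 hx, one_mul]
  exact QuotientGroup.out_eq' c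

variable {f q H}

lemma tr_apply {σ : G ⧸ H → ℕ} {c : G ⧸ H} {y : range (row f)}
    (hy : ∀ x, (QuotientGroup.mk x : G ⧸ H) = c → y.1 x = pt f q H σ x) {x : G} (hx : x ∈ H) :
    (tr f H c y).1 x = row f (q (σ c)) x := by
  show y.1 (x * Quotient.out c) = _
  rw [hy _ (mk_mul_out H hx c)]
  simp only [pt, mk_mul_out H hx c, row]
  rw [mul_assoc x, mul_inv_cancel, mul_one]

end Blocks

/-- The closed set of the points all of whose sensors are near integers, no two near the same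
integer different from `a`. -/
def Ks {f : G → X} {H : Subgroup G} (φ : range (row f) → ℝ) (I : Set (G ⧸ H)) (a : ℤ) :
    Set (range (row f)) :=
  {y | (∀ c ∈ I, ∀ n : ℤ, ¬ ((n : ℝ) + 1 / 4 < φ (tr f H c y) ∧
      φ (tr f H c y) < (n : ℝ) + 3 / 4)) ∧
    ∀ c ∈ I, ∀ c' ∈ I, c ≠ c' → ∀ n : ℤ, n ≠ a →
      ¬ (|φ (tr f H c y) - n| < 1 / 2 ∧ |φ (tr f H c' y) - n| < 1 / 2)}

lemma isClosed_Ks {f : G → X} {H : Subgroup G} {φ : range (row f) → ℝ} (hφ : Continuous φ)
    (I : Set (G ⧸ H)) (a : ℤ) : IsClosed (Ks φ I a) := by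
  have hc : ∀ c, Continuous fun y => φ (tr f H c y) := fun c => hφ.comp (continuous_tr f H c)
  have h1 : Ks φ I a = (⋂ c ∈ I, ⋂ n : ℤ, {y | (n : ℝ) + 1 / 4 < φ (tr f H c y) ∧
      φ (tr f H c y) < (n : ℝ) + 3 / 4}ᶜ) ∩
      ⋂ c ∈ I, ⋂ c' ∈ I, ⋂ (_ : c ≠ c'), ⋂ n : ℤ, ⋂ (_ : n ≠ a),
        {y | |φ (tr f H c y) - n| < 1 / 2 ∧ |φ (tr f H c' y) - n| < 1 / 2}ᶜ := by
    ext y
    simp only [Ks, mem_inter_iff, mem_iInter, mem_compl_iff]
    rfl
  rw [h1]
  refine IsClosed.inter ?_ ?_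
  · refine isClosed_biInter fun c _ => isClosed_iInter fun n => ?_
    rw [isClosed_compl_iff]
    exact (isOpen_lt continuous_const (hc c)).inter (isOpen_lt (hc c) continuous_const)
  · refine isClosed_biInter fun c _ => isClosed_biInter fun c' _ => isClosed_iInter fun _ =>
      isClosed_iInter fun n => isClosed_iInter fun _ => ?_
    rw [isClosed_compl_iff]
    exact (isOpen_lt ((hc c).sub continuous_const).abs continuous_const).inter
      (isOpen_lt ((hc c').sub continuous_const).abs continuous_const)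

lemma near_round {r : ℝ} (h : ∀ n : ℤ, ¬ ((n : ℝ) + 1 / 4 < r ∧ r < (n : ℝ) + 3 / 4)) :
    |r - (round r : ℤ)| < 1 / 2 := by
  have h1 := abs_sub_round r
  rcases lt_or_eq_of_le h1 with h2 | h2
  · exact h2
  · exfalso
    rcases le_or_gt 0 (r - (round r : ℤ)) with h3 | h3
    · rw [abs_of_nonneg h3] at h2
      exact h (round r) ⟨by linarith, by linarith⟩
    · rw [abs_of_neg h3] at h2
      refine h (round r - 1) ⟨?_, ?_⟩
      · push_cast; linarith
      · push_cast; linarith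

lemma Ks_disjoint {f : G → X} {H : Subgroup G} {φ : range (row f) → ℝ} {I : Set (G ⧸ H)}
    (hI : ¬ I.Countable) : Disjoint (Ks φ I 0) (Ks φ I 1) := by
  rw [Set.disjoint_left]
  rintro y ⟨h1, h2⟩ ⟨_, h3⟩
  apply hI
  have hinj : InjOn (fun c => round (φ (tr f H c y))) I := by
    intro c hc c' hc' heq
    by_contra hne
    have h4 := near_round (h1 c hc)
    have h5 := near_round (h1 c' hc')
    simp only at heq
    rw [← heq] at h5
    by_cases h0 : round (φ (tr f H c y)) = 0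
    · exact h3 c hc c' hc' hne _ (by rw [h0]; decide) ⟨h4, h5⟩
    · exact h2 c hc c' hc' hne _ h0 ⟨h4, h5⟩
  exact MapsTo.countable_of_injOn (mapsTo_univ _ _) hinj (countable_univ (α := ℤ))

lemma mem_Ks {f : G → X} {H : Subgroup G} {φ : range (row f) → ℝ} {q : ℕ → G}
    (hφ : ∀ (n : ℕ) (y : range (row f)), (∀ x ∈ H, y.1 x = row f (q n) x) → |φ y - n| < 1 / 5)
    {I : Set (G ⧸ H)} {σ : G ⧸ H → ℕ} {a : ℕ} (hσ : ∀ c c', σ c = σ c' → σ c ≠ a → c = c')
    {y : range (row f)}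
    (hy : ∀ x, (QuotientGroup.mk x : G ⧸ H) ∈ I → y.1 x = pt f q H σ x) : y ∈ Ks φ I a := by
  have key : ∀ c ∈ I, |φ (tr f H c y) - (σ c : ℕ)| < 1 / 5 := by
    intro c hc
    apply hφ
    intro x hx
    exact tr_apply (fun x hx => hy x (by rw [hx]; exact hc)) hx
  have uniq : ∀ c ∈ I, ∀ n : ℤ, |φ (tr f H c y) - n| < 1 / 2 → ((σ c : ℕ) : ℤ) = n := by
    intro c hc n hn
    have h1 := abs_lt.1 (key c hc)
    have h2 := abs_lt.1 hn
    have h3 : (((σ c : ℕ) : ℤ) : ℝ) - n < 1 := by push_cast; linarith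
    have h4 : -1 < (((σ c : ℕ) : ℤ) : ℝ) - n := by push_cast; linarith
    have h5 : ((σ c : ℕ) : ℤ) - n < 1 := by exact_mod_cast h3
    have h6 : -1 < ((σ c : ℕ) : ℤ) - n := by exact_mod_cast h4
    omega
  refine ⟨?_, ?_⟩
  · rintro c hc n ⟨h1, h2⟩
    have h3 := abs_lt.1 (key c hc)
    have h4 : (n : ℝ) < ((σ c : ℕ) : ℤ) := by push_cast; linarith
    have h5 : (((σ c : ℕ) : ℤ) : ℝ) < n + 1 := by push_cast; linarith
    have h6 : n < ((σ c : ℕ) : ℤ) := by exact_mod_cast h4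
    have h7 : ((σ c : ℕ) : ℤ) < n + 1 := by exact_mod_cast h5
    omega
  · rintro c hc c' hc' hne n hn ⟨h1, h2⟩
    have h3 := uniq c hc n h1
    have h4 := uniq c' hc' n h2
    apply hne
    apply hσ
    · omega
    · intro h; apply hn; rw [← h3, h]

lemma mk_blocks_le {H : Subgroup G} (hH : (H : Set G).Countable) {I : Set (G ⧸ H)}
    (hI : #I ≤ ℵ₁) : #{x : G | (QuotientGroup.mk x : G ⧸ H) ∈ I} ≤ ℵ₁ := by
  have h1 : #{x : G | (QuotientGroup.mk x : G ⧸ H) ∈ I} ≤ #(I × (H : Set G)) := by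
    refine mk_le_of_injective (f := fun x => (⟨QuotientGroup.mk x.1, x.2⟩,
      ⟨(Quotient.out (QuotientGroup.mk x.1 : G ⧸ H))⁻¹ * x.1, ?_⟩)) ?_
    · have := QuotientGroup.out_eq' (QuotientGroup.mk x.1 : G ⧸ H)
      exact (QuotientGroup.eq).1 this
    · intro x y hxy
      simp only [Prod.mk.injEq, Subtype.mk.injEq] at hxy
      obtain ⟨h1, h2⟩ := hxy
      rw [h1] at h2
      exact Subtype.ext (mul_left_cancel h2)
  refine h1.trans ?_
  rw [mk_prod, lift_id, lift_id]
  exact mul_le_of_le (aleph0_le_aleph 1) hI (hH.le_aleph0.trans (aleph0_le_aleph 1))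

/-- If all patterns with `ℵ₁` coordinates are realised by the orbit of `f`, then the orbit is not
a normal `T₁` space. -/
theorem not_T4_of_full [Nontrivial X] (f : G → X)
    (hf : ∀ M : Set G, #M ≤ ℵ₁ → ∀ r : G → X, ∃ g : G, ∀ m ∈ M, f (m * g) = r m) :
    ¬ T4Space (range (row f)) := by
  classical
  intro hT
  have hK : Kor f := fun M hM => hf M (hM.le_aleph0.trans (aleph0_le_aleph 1))
  obtain ⟨φ, q, H, hφc, hH, hφ⟩ := exists_sensor hK hT
  -- the group is large
  have hG : ¬ #G ≤ ℵ₁ := by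
    intro h
    have h2 : Function.Surjective (row f) := by
      intro r
      obtain ⟨g, hg⟩ := hf univ (by rwa [mk_univ]) r
      exact ⟨g, funext fun x => hg x trivial⟩
    obtain ⟨a, b, hab⟩ := exists_pair_ne X
    obtain ⟨g, hg⟩ := h2 fun z => if f (z * z) = a then b else a
    have := congrFun hg g
    simp only [row] at this
    split_ifs at this with h
    · exact hab (h.symm.trans this)
    · exact h this
  have hQ : ℵ₁ ≤ #(G ⧸ H) := by
    by_contra hcon
    apply hG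
    have h1 : #(univ : Set (G ⧸ H)) ≤ ℵ₁ := by rw [mk_univ]; exact (not_le.1 hcon).le
    have h2 := mk_blocks_le hH h1
    refine le_trans (le_of_eq ?_) h2
    rw [← mk_univ]
    congr 1
  obtain ⟨I, hI⟩ := le_mk_iff_exists_set.1 hQ
  have hIc : ¬ I.Countable := by
    intro h
    have := h.le_aleph0
    rw [hI] at this
    exact absurd this (not_le.2 aleph0_lt_aleph_one)
  obtain ⟨U, V, hU, hV, hKU, hLV, hUV⟩ := hT.toNormalSpace.normal _ _
    (isClosed_Ks hφc I 0) (isClosed_Ks hφc I 1) (Ks_disjoint hIc)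
  obtain ⟨U', hU', rfl⟩ := isOpen_induced_iff.1 hU
  obtain ⟨V', hV', rfl⟩ := isOpen_induced_iff.1 hV
  -- points with a given state
  have hpt : ∀ (B : Set (G ⧸ H)), B.Countable → ∀ σ : G ⧸ H → ℕ, ∃ g : G,
      ∀ x, (QuotientGroup.mk x : G ⧸ H) ∈ I ∪ B → row f g x = pt f q H σ x := by
    intro B hB σ
    have h1 : #(I ∪ B : Set (G ⧸ H)) ≤ ℵ₁ := by
      refine (mk_union_le _ _).trans (add_le_of_le (aleph0_le_aleph 1) hI.le ?_)
      exact hB.le_aleph0.trans (aleph0_le_aleph 1)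
    obtain ⟨g, hg⟩ := hf _ (mk_blocks_le hH h1) (pt f q H σ)
    exact ⟨g, fun x hx => hg x hx⟩
  let σ₀ : List (G ⧸ H) → G ⧸ H → ℕ := fun L c => if c ∈ L then L.idxOf c + 2 else 0
  have hstep : ∀ L : List (G ⧸ H), ∃ (g : G) (R : Finset G),
      (∀ x, (QuotientGroup.mk x : G ⧸ H) ∈ L → row f g x = pt f q H (σ₀ L) x) ∧
      ∀ z : G → X, (∀ x ∈ R, z x = row f g x) → z ∈ U' := by
    intro L
    obtain ⟨g, hg⟩ := hpt {c | c ∈ L} (L.finite_toSet.countable) (σ₀ L)
    have hmem : (⟨row f g, mem_range_self g⟩ : range (row f)) ∈ Ks φ I (0 : ℕ) := by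
      refine mem_Ks (σ := σ₀ L) hφ ?_ fun x hx => hg x (Or.inl hx)
      intro c c' h hne
      simp only [σ₀] at h hne
      by_cases hc : c ∈ L
      · by_cases hc' : c' ∈ L
        · rw [if_pos hc, if_pos hc'] at h
          exact (List.idxOf_inj hc).1 (by omega)
        · rw [if_pos hc, if_neg hc'] at h; omega
      · rw [if_neg hc] at hne; omega
    obtain ⟨R, hR⟩ := exists_box hU' (show row f g ∈ U' from hKU (by simpa using hmem))
    exact ⟨g, R, fun x hx => hg x (Or.inr hx), hR⟩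
  choose gL RL hgL hRL using hstep
  let nxt : List (G ⧸ H) → List (G ⧸ H) := fun L =>
    L ++ ((RL L).toList.map fun x => (QuotientGroup.mk x : G ⧸ H))
  let Ls : ℕ → List (G ⧸ H) := fun n => nxt^[n] []
  have hLs : ∀ n, Ls (n + 1) = nxt (Ls n) := fun n => Function.iterate_succ_apply' nxt n _
  have hmono : ∀ m n, m ≤ n → ∀ c ∈ Ls m, c ∈ Ls n ∧ (Ls n).idxOf c = (Ls m).idxOf c := by
    intro m n hmn
    induction n, hmn using Nat.le_induction with
    | base => exact fun c hc => ⟨hc, rfl⟩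
    | succ n _ ih =>
      intro c hc
      obtain ⟨h1, h2⟩ := ih c hc
      rw [hLs]
      exact ⟨List.mem_append_left _ h1, by rw [List.idxOf_append_of_mem h1, h2]⟩
  let Bω : Set (G ⧸ H) := {c | ∃ n, c ∈ Ls n}
  have hBω : Bω.Countable := by
    have : Bω = ⋃ n, {c | c ∈ Ls n} := by ext c; simp [Bω]
    rw [this]
    exact countable_iUnion fun n => (Ls n).finite_toSet.countable
  let σ₁ : G ⧸ H → ℕ := fun c =>
    if h : ∃ n, c ∈ Ls n then (Ls (Classical.choose h)).idxOf c + 2 else 1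
  have hσ₁ : ∀ n c, c ∈ Ls n → σ₁ c = (Ls n).idxOf c + 2 := by
    intro n c hc
    have h : ∃ n, c ∈ Ls n := ⟨n, hc⟩
    simp only [σ₁, dif_pos h]
    have h1 := Classical.choose_spec h
    rcases le_total n (Classical.choose h) with h2 | h2
    · rw [(hmono _ _ h2 c hc).2]
    · rw [(hmono _ _ h2 c h1).2]
  obtain ⟨g₁, hg₁⟩ := hpt Bω hBω σ₁
  have hmem : (⟨row f g₁, mem_range_self g₁⟩ : range (row f)) ∈ Ks φ I (1 : ℕ) := by
    refine mem_Ks (σ := σ₁) hφ ?_ fun x hx => hg₁ x (Or.inl hx)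
    intro c c' h hne
    by_cases hc : ∃ n, c ∈ Ls n
    · by_cases hc' : ∃ n, c' ∈ Ls n
      · obtain ⟨n, hn⟩ := hc
        obtain ⟨m, hm⟩ := hc'
        have h1 := (hmono n (max n m) (le_max_left _ _) c hn).1
        have h2 := (hmono m (max n m) (le_max_right _ _) c' hm).1
        rw [hσ₁ _ _ h1, hσ₁ _ _ h2] at h
        exact (List.idxOf_inj h1).1 (by omega)
      · obtain ⟨n, hn⟩ := hc
        rw [hσ₁ _ _ hn] at h
        have : σ₁ c' = 1 := by simp only [σ₁, dif_neg hc']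
        omega
    · exfalso; apply hne; simp only [σ₁, dif_neg hc]
  obtain ⟨R₁, hR₁⟩ := exists_box hV' (show row f g₁ ∈ V' from hLV (by simpa using hmem))
  -- a good stage
  have hstage : ∃ n, ∀ x ∈ R₁, (QuotientGroup.mk x : G ⧸ H) ∈ Bω →
      (QuotientGroup.mk x : G ⧸ H) ∈ Ls n := by
    have h1 : ∀ x : G, ∃ n, (QuotientGroup.mk x : G ⧸ H) ∈ Bω →
        (QuotientGroup.mk x : G ⧸ H) ∈ Ls n := by
      intro x
      by_cases h : (QuotientGroup.mk x : G ⧸ H) ∈ Bω
      · obtain ⟨n, hn⟩ := h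
        exact ⟨n, fun _ => hn⟩
      · exact ⟨0, fun h' => (h h').elim⟩
    choose nx hnx using h1
    refine ⟨R₁.sup nx, fun x hx h => ?_⟩
    exact (hmono _ _ (Finset.le_sup (f := nx) hx) _ (hnx x h)).1
  obtain ⟨n, hn⟩ := hstage
  obtain ⟨g, hg⟩ := hK ((RL (Ls n) : Set G) ∪ (R₁ : Set G))
    ((RL (Ls n)).finite_toSet.countable.union R₁.finite_toSet.countable)
    fun z => if z ∈ R₁ then row f g₁ z else row f (gL (Ls n)) z
  have hgV : row f g ∈ V' := by
    refine hR₁ _ fun z hz => ?_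
    show f (z * g) = _
    rw [hg z (Or.inr hz)]; simp [hz]
  have hgU : row f g ∈ U' := by
    refine hRL (Ls n) _ fun z hz => ?_
    show f (z * g) = _
    rw [hg z (Or.inl hz)]
    by_cases hz1 : z ∈ R₁
    · simp only [hz1, if_true]
      have h1 : (QuotientGroup.mk z : G ⧸ H) ∈ Ls (n + 1) := by
        rw [hLs]
        exact List.mem_append_right _ (List.mem_map.2 ⟨z, Finset.mem_toList.2 hz, rfl⟩)
      have h2 := hn z hz1 ⟨n + 1, h1⟩
      rw [hg₁ z (Or.inr ⟨n, h2⟩), hgL (Ls n) z h2]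
      apply pt_congr
      rw [hσ₁ n _ h2]
      simp only [σ₀, if_pos h2]
    · simp [hz1]
  exact (Set.disjoint_left.1 hUV) (a := ⟨row f g, mem_range_self g⟩) hgU hgV

end Pool.H76.KO.Non
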