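import Pool.Agent.H76.KO.Build

/-! The two cases in which the hypothesis on the cardinal holds. -/

open Set Cardinal

namespace Pool.H76.KO

/-- Finite partial functions. -/
def IsFn {E : Type} (s : Finset (E × ℤ)) : Prop := ∃ y : E → ℤ, ∀ p ∈ s, y p.1 = p.2

/-- Fewer than `κ` dense sets of finite partial functions are met by one function. -/
def CohenMA (κ : Cardinal.{0}) : Prop :=
  ∀ (E J : Type), #J < κ → ∀ D : J → Set (Finset (E × ℤ)),
    (∀ j s, IsFn s → ∃ t ∈ D j, IsFn t ∧ s ⊆ t) →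
      ∃ y : E → ℤ, ∀ j, ∃ t ∈ D j, ∀ p ∈ t, y p.1 = p.2

lemma hyp_aleph2 (h : (2 : Cardinal.{0}) ^ (ℵ₁ : Cardinal.{0}) = ℵ_ 2) :
    Hyp (ℵ_ 2 : Cardinal.{0}) := by
  have h2 : (ℵ_ 2 : Cardinal.{0}) = Order.succ ℵ₁ := by
    rw [← aleph_succ]
    congr 1
    norm_num
  refine ⟨?_, ?_, ?_, ?_⟩
  · rw [h2]; exact isRegular_succ (aleph0_le_aleph 1)
  · rw [h2]; exact Order.lt_succ _
  · intro μ hμ
    rw [h2] at hμ
    rw [← h]
    exact power_le_power_left two_ne_zero (Order.lt_succ_iff.1 hμ)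
  · intro E J hJ V σ n C₀ hC₀ y₀
    rw [h2] at hJ
    exact baire' (Order.lt_succ_iff.1 hJ)
      (W := fun j => {y | (fun x => y (σ j x) - n j x) ∈ Op (V j) ∪ Ext (V j)})
      (fun j => SD_transport (SD_OpExt _) (σ j) (n j)) hC₀ y₀

lemma hyp_of_cohen {κ : Cardinal.{0}} (hr : κ.IsRegular) (h1 : ℵ₁ < κ)
    (hp : ∀ μ : Cardinal.{0}, μ < κ → 2 ^ μ ≤ κ) (hMA : CohenMA κ) : Hyp κ := by
  classical
  refine ⟨hr, h1, hp, ?_⟩
  intro E J hJ V σ n C₀ hC₀ y₀
  -- the function with prescribed values on `C₀`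
  let pr : (E → ℤ) → E → ℤ := fun y x => if x ∈ C₀ then y₀ x else y x
  let D : J → Set (Finset (E × ℤ)) := fun j => {t | (∃ s ∈ V j, ∀ y ∈ Nb t,
      (fun x => pr y (σ j x) - n j x) ∈ Nb s) ∨
    ∀ y ∈ Nb t, (fun x => pr y (σ j x) - n j x) ∉ Op (V j)}
  obtain ⟨y, hy⟩ := hMA E J hJ D (by
    intro j s₀ hs₀
    by_cases h : ∃ y ∈ Nb s₀, (fun x => pr y (σ j x) - n j x) ∈ Op (V j)
    · obtain ⟨y, hy, s, hs, hys⟩ := h
      have hmem : ∀ p ∈ s, ((σ j p.1, y (σ j p.1)) : E × ℤ) ∈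
          s₀ ∪ s.image fun p => (σ j p.1, y (σ j p.1)) := by
        intro p hp
        exact Finset.mem_union_right _ (Finset.mem_image.2 ⟨p, hp, rfl⟩)
      refine ⟨s₀ ∪ s.image fun p => (σ j p.1, y (σ j p.1)), Or.inl ⟨s, hs, ?_⟩, ⟨y, ?_⟩,
        Finset.subset_union_left⟩
      · intro y' hy' p hp
        have h1 : y' (σ j p.1) = y (σ j p.1) := hy' _ (hmem p hp)
        rw [← hys p hp]
        simp only [pr, h1]
      · intro p hp
        rcases Finset.mem_union.1 hp with h2 | h2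
        · exact hy p h2
        · obtain ⟨q, _, rfl⟩ := Finset.mem_image.1 h2
          rfl
    · push Not at h
      exact ⟨s₀, Or.inr h, hs₀, subset_rfl⟩)
  refine ⟨pr y, fun x hx => by simp [pr, hx], fun j => ?_⟩
  obtain ⟨t, ht, hyt⟩ := hy j
  rcases ht with ⟨s, hs, h⟩ | h
  · exact Or.inl ⟨s, hs, h y hyt⟩
  · refine Or.inr ⟨σ j ⁻¹' (dom t ∪ C₀), ((dom_finite t).countable.union hC₀).preimage
      (σ j).injective, ?_⟩
    intro y'' hy'' hO
    let y' : E → ℤ := fun x => if x ∈ C₀ then y x else y'' ((σ j).symm x) + n j ((σ j).symm x)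
    have h2 : y' ∈ Nb t := by
      intro p hp
      by_cases hpC : p.1 ∈ C₀
      · simp only [y', hpC, if_true]
        exact hyt p hp
      · simp only [y', hpC, if_false]
        have h3 : (σ j).symm p.1 ∈ σ j ⁻¹' (dom t ∪ C₀) := by
          simp only [mem_preimage, Equiv.apply_symm_apply]
          exact Or.inl (mem_dom hp)
        have h4 := hy'' h3
        simp only [pr, Equiv.apply_symm_apply, hpC, if_false] at h4
        rw [h4, hyt p hp]
        ring
    apply h y' h2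
    have h5 : (fun x => pr y' (σ j x) - n j x) = y'' := by
      funext x
      by_cases hx : σ j x ∈ C₀
      · have h3 : x ∈ σ j ⁻¹' (dom t ∪ C₀) := Or.inr hx
        have h4 := hy'' h3
        simp only [pr, hx, if_true] at h4 ⊢
        exact h4.symm
      · simp only [pr, y', hx, if_false, Equiv.symm_apply_apply]
        ring
    rw [h5]
    exact hO

end Pool.H76.KO
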