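import Pool.Agent.H76.KO.Card

/-! Two reflection lemmas: a full family contains a full family with at most `ℵ₁` members, and the
countable exterior of a family is a countable intersection of clopen sets. -/

open Set Cardinal
set_option profiler true
set_option profiler.threshold 3000

namespace Pool.H76.KO

variable {G : Type}

lemma mk_finset_le {α : Type} {c : Cardinal.{0}} (hc : ℵ₀ ≤ c) (h : #α ≤ c) :
    #(Finset α) ≤ c := by
  classical
  have : Function.Surjective (List.toFinset : List α → Finset α) := List.toFinset_surjective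
  exact (mk_le_of_surjective this).trans ((mk_list_le_max α).trans (max_le hc h))

lemma mk_pat_le {c : Cardinal.{0}} (hc : ℵ₀ ≤ c) {H : Set G} (hH : #H ≤ c) :
    #{t : Pat G | dom t ⊆ H} ≤ c := by
  classical
  have h1 : #(Finset (H × ℤ)) ≤ c := by
    apply mk_finset_le hc
    rw [mk_prod, lift_id, lift_id]
    exact mul_le_of_le hc hH ((mk_le_aleph0 (α := ℤ)).trans hc)
  let φ : Finset (H × ℤ) → Pat G := fun u => u.image fun p => (p.1.1, p.2)
  have h2 : {t : Pat G | dom t ⊆ H} ⊆ range φ := by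
    intro t ht
    refine ⟨t.attach.image fun p => (⟨p.1.1, ht (mem_dom p.2)⟩, p.1.2), ?_⟩
    ext p
    simp only [φ, Finset.mem_image, Finset.mem_attach, true_and, Subtype.exists]
    constructor
    · rintro ⟨q, ⟨r, hr, rfl⟩, rfl⟩
      exact hr
    · intro hp
      exact ⟨_, ⟨p, hp, rfl⟩, rfl⟩
  exact (mk_le_mk_of_subset h2).trans (mk_range_le.trans h1)

open Classical in
/-- The restriction of a pattern to a set of coordinates. -/
noncomputable def res (H : Set G) (s : Pat G) : Pat G := s.filter fun p => p.1 ∈ H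

lemma mem_res {H : Set G} {s : Pat G} {p : G × ℤ} : p ∈ res H s ↔ p ∈ s ∧ p.1 ∈ H := by
  simp [res]

lemma dom_res (H : Set G) (s : Pat G) : dom (res H s) ⊆ H := by
  rintro x ⟨p, hp, rfl⟩
  exact (mem_res.1 hp).2

open Classical in
/-- A member of `V` whose restriction to `H` is `t`. -/
noncomputable def ch (V : Set (Pat G)) (H : Set G) (t : Pat G) : Pat G :=
  if h : ∃ s ∈ V, (Nb s).Nonempty ∧ res H s = t then Classical.choose h else ∅

/-- One step of the closure. -/
noncomputable def cl (V : Set (Pat G)) (H : Set G) : Set G :=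
  H ∪ ⋃ t ∈ {t : Pat G | dom t ⊆ H}, dom (ch V H t)

lemma mk_cl_le (V : Set (Pat G)) {H : Set G} (hH : #H ≤ ℵ₁) : #(cl V H) ≤ ℵ₁ := by
  refine (mk_union_le _ _).trans ?_
  refine add_le_of_le (aleph0_le_aleph 1) hH ?_
  exact mk_image_fin_le (mk_pat_le (aleph0_le_aleph 1) hH) _ fun a => (dom_finite _).countable

/-- The chain of closures. -/
noncomputable def Hc (V : Set (Pat G)) : W1 → Set G :=
  (wellFounded_lt (α := W1)).fix (C := fun _ => Set G)
    (fun i S => ⋃ j : {j : W1 // j < i}, cl V (S j.1 j.2))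

lemma Hc_eq (V : Set (Pat G)) (i : W1) :
    Hc V i = ⋃ j : {j : W1 // j < i}, cl V (Hc V j.1) :=
  (wellFounded_lt (α := W1)).fix_eq (C := fun _ => Set G)
    (fun i S => ⋃ j : {j : W1 // j < i}, cl V (S j.1 j.2)) i

lemma cl_subset_Hc (V : Set (Pat G)) {i j : W1} (h : j < i) : cl V (Hc V j) ⊆ Hc V i := by
  rw [Hc_eq V i]
  exact subset_iUnion_of_subset ⟨j, h⟩ subset_rfl

lemma mk_Hc_le (V : Set (Pat G)) (i : W1) : #(Hc V i) ≤ ℵ₁ := by
  induction i using (wellFounded_lt (α := W1)).induction with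
  | _ i ih =>
    rw [Hc_eq V i]
    have h1 : #{j : W1 // j < i} ≤ ℵ₁ :=
      (le_aleph0_iff_set_countable.mpr (W1_countable_Iio i)).trans (aleph0_le_aleph 1)
    have h2 : ∀ j : {j : W1 // j < i}, #(cl V (Hc V j.1)) ≤ ℵ₁ := fun j =>
      mk_cl_le V (ih j.1 j.2)
    have h3 := mk_iUnion_le (fun j : {j : W1 // j < i} => cl V (Hc V j.1))
    refine h3.trans ((mul_le_mul' h1 (ciSup_le' h2)).trans ?_)
    exact (mul_eq_self (aleph0_le_aleph 1)).le

/-- A full family contains a full family with at most `ℵ₁` members. -/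
lemma exists_full {V : Set (Pat G)} (hV : Full V) : ∃ V₁ ⊆ V, #V₁ ≤ ℵ₁ ∧ Full V₁ := by
  classical
  let Hs : Set G := ⋃ i, Hc V i
  have hHs : #Hs ≤ ℵ₁ := by
    refine (mk_iUnion_le _).trans ?_
    refine (mul_le_mul' mk_W1.le (ciSup_le' (a := ℵ₁) fun j => mk_Hc_le V j)).trans ?_
    exact (mul_eq_self (aleph0_le_aleph 1)).le
  refine ⟨{s ∈ V | dom s ⊆ Hs}, fun s hs => hs.1, ?_, ?_⟩
  · refine (mk_le_mk_of_subset ?_).trans (mk_pat_le (aleph0_le_aleph 1) hHs)
    exact fun s hs => hs.2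
  · intro C hC y
    have hmem : ∀ x : ↥(C ∩ Hs), ∃ i, x.1 ∈ Hc V i := fun x => mem_iUnion.1 x.2.2
    choose ix hix using hmem
    have hcount : Countable ↥(C ∩ Hs) := (hC.mono inter_subset_left).to_subtype
    obtain ⟨i, hi⟩ := W1_bounded (countable_range ix)
    have hCi : C ∩ Hs ⊆ Hc V i := by
      intro x hx
      have h1 : ix ⟨x, hx⟩ < i := hi _ (mem_range_self _)
      exact cl_subset_Hc V h1 (Or.inl (hix ⟨x, hx⟩))
    obtain ⟨i', hi'⟩ := W1_bounded (countable_singleton i)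
    have hii' : i < i' := hi' i rfl
    obtain ⟨y', h1, s, hs, hy's⟩ := hV C hC y
    have hex : ∃ s' ∈ V, (Nb s').Nonempty ∧ res (Hc V i) s' = res (Hc V i) s :=
      ⟨s, hs, ⟨y', hy's⟩, rfl⟩
    have hch : ch V (Hc V i) (res (Hc V i) s) = Classical.choose hex := by
      simp only [ch, dif_pos hex]
    obtain ⟨hs'V, ⟨z, hz⟩, hres⟩ := Classical.choose_spec hex
    rw [← hch] at hs'V hz hres
    set s' := ch V (Hc V i) (res (Hc V i) s) with hs'
    have hdom : dom s' ⊆ Hs := by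
      intro x hx
      refine mem_iUnion.2 ⟨i', cl_subset_Hc V hii' (Or.inr ?_)⟩
      exact mem_iUnion₂.2 ⟨res (Hc V i) s, dom_res _ _, hx⟩
    refine ⟨fun x => if x ∈ C then y x else z x, ?_, s', ⟨hs'V, hdom⟩, ?_⟩
    · intro x hx
      simp only [hx, if_true]
    · intro p hp
      by_cases hpC : p.1 ∈ C
      · simp only [hpC, if_true]
        have h2 : p ∈ res (Hc V i) s' := mem_res.2 ⟨hp, hCi ⟨hpC, hdom (mem_dom hp)⟩⟩
        rw [hres] at h2
        rw [← h1 hpC]
        exact hy's p (mem_res.1 h2).1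
      · simp only [hpC, if_false]
        exact hz p hp

lemma countable_pat {M : Set G} (hM : M.Countable) : {t : Pat G | dom t ⊆ M}.Countable := by
  rw [← le_aleph0_iff_set_countable] at hM ⊢
  exact mk_pat_le le_rfl hM

lemma countable_fin {M : Set G} (hM : M.Countable) : {F : Finset G | (F : Set G) ⊆ M}.Countable := by
  classical
  have : Countable M := hM.to_subtype
  have h2 : {F : Finset G | (F : Set G) ⊆ M} ⊆
      range (fun u : Finset ↥M => (u.image (fun p : ↥M => (p : G)) : Finset G)) := by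
    intro F hF
    refine ⟨F.attach.image (fun x => (⟨x.1, hF x.2⟩ : ↥M)), ?_⟩
    ext x
    simp only [Finset.mem_image, Finset.mem_attach, true_and]
    constructor
    · rintro ⟨a, ⟨b, rfl⟩, rfl⟩
      exact b.2
    · intro hx
      exact ⟨⟨x, hF hx⟩, ⟨⟨x, hx⟩, rfl⟩, rfl⟩
  exact (countable_range _).mono h2

/-- The countable exterior of a family is a countable intersection of clopen sets which depend on
finitely many coordinates. -/
lemma exists_seq (V : Set (Pat G)) : ∃ F : ℕ → Finset G,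
    ∀ y : G → ℤ, (∀ k, ∃ y' ∈ Ext V, EqOn y' y (F k)) → y ∈ Ext V := by
  classical
  have hex : ∀ s : Pat G, ∃ (ys : G → ℤ) (C : Set G), C.Countable ∧
      ((∃ y ∈ Ext V, y ∈ Nb s) → ys ∈ Nb s ∧ ∀ y', EqOn y' ys C → y' ∉ Op V) := by
    intro s
    by_cases h : ∃ y ∈ Ext V, y ∈ Nb s
    · obtain ⟨y, ⟨C, hC, h1⟩, h2⟩ := h
      exact ⟨y, C, hC, fun _ => ⟨h2, h1⟩⟩
    · exact ⟨fun _ => 0, ∅, countable_empty, fun h' => (h h').elim⟩
  choose ys Cs hCs hys using hex
  let M : ℕ → Set G := fun n => Nat.rec ∅ (fun _ M => M ∪ ⋃ s ∈ {s : Pat G | dom s ⊆ M}, Cs s) n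
  have hM : ∀ n, M (n + 1) = M n ∪ ⋃ s ∈ {s : Pat G | dom s ⊆ M n}, Cs s := fun n => rfl
  have hMc : ∀ n, (M n).Countable := by
    intro n
    induction n with
    | zero => exact countable_empty
    | succ n ih =>
      rw [hM]
      exact ih.union ((countable_pat ih).biUnion fun s _ => hCs s)
  have hMmono : Monotone M := monotone_nat_of_le_succ fun n => by
    rw [hM]; exact subset_union_left
  let Ms : Set G := ⋃ n, M n
  have hMs : Ms.Countable := countable_iUnion hMc
  have hfin : ∀ s : Pat G, dom s ⊆ Ms → ∃ n, dom s ⊆ M n := by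
    intro s hs
    have h1 : ∀ x : ↥(dom s), ∃ n, x.1 ∈ M n := fun x => mem_iUnion.1 (hs x.2)
    choose nx hnx using h1
    have : Finite ↥(dom s) := (dom_finite s).to_subtype
    obtain ⟨n, hn⟩ := (finite_range nx).bddAbove
    exact ⟨n, fun x hx => hMmono (hn (mem_range_self ⟨x, hx⟩)) (hnx ⟨x, hx⟩)⟩
  obtain ⟨F, hF⟩ := (countable_fin hMs).exists_eq_range ⟨∅, by simp⟩
  refine ⟨F, fun y hy => ⟨Ms, hMs, ?_⟩⟩
  rintro y' h1 ⟨t, ht, hy't⟩
  have hFt : ((res Ms t).image Prod.fst) ∈ {F : Finset G | (F : Set G) ⊆ Ms} := by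
    intro x hx
    simp only [Finset.coe_image, mem_image, Finset.mem_coe] at hx
    obtain ⟨p, hp, rfl⟩ := hx
    exact (mem_res.1 hp).2
  rw [hF] at hFt
  obtain ⟨k, hk⟩ := hFt
  obtain ⟨y₁, h2, h3⟩ := hy k
  have h4 : y₁ ∈ Nb (res Ms t) := by
    intro p hp
    have hpk : p.1 ∈ (F k : Set G) := by
      rw [hk]
      simp only [Finset.coe_image, mem_image, Finset.mem_coe]
      exact ⟨p, hp, rfl⟩
    rw [h3 hpk, ← h1 (mem_res.1 hp).2]
    exact hy't p (mem_res.1 hp).1
  obtain ⟨h5, h6⟩ := hys (res Ms t) ⟨y₁, h2, h4⟩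
  obtain ⟨n, hn⟩ := hfin _ (dom_res Ms t)
  have hCM : Cs (res Ms t) ⊆ Ms := by
    intro x hx
    refine mem_iUnion.2 ⟨n + 1, ?_⟩
    rw [hM]
    exact Or.inr (mem_iUnion₂.2 ⟨_, hn, hx⟩)
  refine h6 (fun x => if x ∈ Ms then ys (res Ms t) x else y' x) ?_ ⟨t, ht, ?_⟩
  · intro x hx
    simp only [hCM hx, if_true]
  · intro p hp
    by_cases hpM : p.1 ∈ Ms
    · simp only [hpM, if_true]
      exact h5 p (mem_res.2 ⟨hp, hpM⟩)
    · simp only [hpM, if_false]
      exact hy't p hp

end Pool.H76.KO
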