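import Mathlib

/-! A Korovin orbit which realises all patterns of size less than `|G|` is not normal. -/

open Set Cardinal

universe u v

namespace Pool.H76.KO.Non

variable {G : Type u} {X : Type v} [CommGroup G] [TopologicalSpace X]

/-- The row of `g`. -/
def row (f : G → X) (g : G) : G → X := fun x => f (x * g)

/-- Boxes. -/
lemma exists_box {ι : Type u} {U : Set (ι → X)} (hU : IsOpen U) {y : ι → X} (hy : y ∈ U) :
    ∃ R : Finset ι, ∀ z : ι → X, (∀ x ∈ R, z x = y x) → z ∈ U := by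
  rw [isOpen_pi_iff] at hU
  obtain ⟨I, u, h1, h2⟩ := hU y hy
  refine ⟨I, fun z hz => h2 ?_⟩
  intro x hx
  rw [hz x hx]
  exact (h1 x hx).2

lemma mk_Iic_lt {c : Cardinal.{u}} (hc : ℵ₀ ≤ c) (i : c.ord.ToType) : #(Iic i) < c := by
  have : (Iic i : Set _) = Iio i ∪ {i} := by
    ext x; simp [le_iff_lt_or_eq]
  rw [this]
  refine (mk_union_le _ _).trans_lt ?_
  refine add_lt_of_lt hc (mk_Iio_toType_ord_lt i) ?_
  rw [mk_singleton]
  exact one_lt_aleph0.trans_le hc

/-- If all patterns with fewer than `|G|` coordinates are realised by the orbit of `f` and `|G|`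
has uncountable cofinality, then the orbit is not a normal `T₁` space. -/
theorem not_T4 [Nontrivial X] (f : G → X) (hcof : ℵ₀ < (#G).ord.cof)
    (hf : ∀ M : Set G, #M < #G → ∀ r : G → X, ∃ g : G, ∀ m ∈ M, f (m * g) = r m) :
    ¬ T4Space (range (row f)) := by
  classical
  intro hT
  have hG : ℵ₀ ≤ #G := hcof.le.trans (Ordinal.cof_ord_le _)
  have hfin : ∀ M : Set G, M.Finite → ∀ r : G → X, ∃ g : G, ∀ m ∈ M, f (m * g) = r m :=
    fun M hM => hf M (hM.lt_aleph0.trans_le hG)
  -- two values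
  obtain ⟨a, b, hab⟩ := exists_pair_ne X
  obtain ⟨ga, hga⟩ := hfin {1} (finite_singleton 1) fun _ => a
  obtain ⟨gb, hgb⟩ := hfin {1} (finite_singleton 1) fun _ => b
  have hrow : row f ga ≠ row f gb := by
    intro h
    have := congrFun h 1
    simp only [row] at this
    rw [hga 1 rfl, hgb 1 rfl] at this
    exact hab this
  obtain ⟨U, hU, hUa, hUb⟩ := t1Space_iff_exists_open.1 hT.toT1Space
    (show (⟨row f ga, mem_range_self _⟩ : range (row f)) ≠ ⟨row f gb, mem_range_self _⟩ from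
      fun h => hrow (congrArg Subtype.val h))
  obtain ⟨U', hU', rfl⟩ := isOpen_induced_iff.1 hU
  have huv : ∃ (u v : X) (U₀ : Set X), IsOpen U₀ ∧ v ∈ U₀ ∧ u ∉ U₀ := by
    rw [isOpen_pi_iff] at hU'
    obtain ⟨I, w, h1, h2⟩ := hU' _ hUa
    have : ¬ ∀ x ∈ I, row f gb x ∈ w x := fun h => hUb (h2 fun x hx => h x hx)
    push Not at this
    obtain ⟨x, hx, hx'⟩ := this
    exact ⟨row f gb x, row f ga x, w x, (h1 x hx).1, (h1 x hx).2, hx'⟩
  obtain ⟨u, v, U₀, hU₀, hv, hu⟩ := huv
  -- the index set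
  let I : Type u := (#G).ord.ToType
  have hI : #I = #G := by rw [mk_toType, card_ord]
  obtain ⟨x⟩ : Nonempty (I ≃ G) := Cardinal.eq.1 hI
  have hbdd : ∀ Z : Set I, Z.Countable → ∃ i, ∀ j ∈ Z, j < i := by
    intro Z hZ
    have h1 : ¬ IsCofinal Z := by
      intro h
      have h2 := Order.cof_le h
      rw [Ordinal.cof_toType] at h2
      exact absurd (h2.trans hZ.le_aleph0) (not_le.2 hcof)
    exact not_isCofinal_iff.1 h1
  -- the points
  have hc : ∀ γ : I, ∃ c : G, (∀ β, β < γ → f (x β * c) = u) ∧ f (x γ * c) = v := by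
    intro γ
    have hM : #(x '' Iic γ) < #G := mk_image_le.trans_lt (mk_Iic_lt hG γ)
    obtain ⟨c, hc⟩ := hf _ hM fun z => if z = x γ then v else u
    refine ⟨c, fun β hβ => ?_, ?_⟩
    · rw [hc _ (mem_image_of_mem _ hβ.le)]
      have : x β ≠ x γ := fun h => hβ.ne (x.injective h)
      simp [this]
    · rw [hc _ (mem_image_of_mem _ self_mem_Iic)]
      simp
  choose c hc1 hc2 using hc
  have huv' : u ≠ v := fun h => hu (h ▸ hv)
  have hinj : ∀ γ δ, γ < δ → c γ ≠ c δ := by
    intro γ δ h heq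
    have h1 := hc1 δ γ h
    rw [← heq, hc2] at h1
    exact huv' h1.symm
  -- every set of points is closed
  have hcl : ∀ Γ : Set I, IsClosed {y : range (row f) | ∃ γ ∈ Γ, row f (c γ) = y.1} := by
    intro Γ
    rw [← isOpen_compl_iff, isOpen_iff_forall_mem_open]
    rintro ⟨_, h, rfl⟩ hh
    obtain ⟨w, hw⟩ := hfin {1} (finite_singleton 1) fun _ => v
    have hw1 : f w = v := by simpa using hw 1 rfl
    obtain ⟨δ, hδ⟩ := x.surjective (w * h⁻¹)
    have hδ' : f (x δ * h) = v := by rw [hδ]; simpa using hw1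
    have hM : #((insert h (c '' Iic δ) : Set G)) < #G := by
      refine (mk_insert_le).trans_lt (add_lt_of_lt hG ?_ (one_lt_aleph0.trans_le hG))
      exact mk_image_le.trans_lt (mk_Iic_lt hG δ)
    obtain ⟨x', hx'⟩ := hf _ hM fun z => if z = h then v else u
    have h1 : f (h * x') = v := by
      rw [hx' h (mem_insert _ _)]; simp
    have h2 : ∀ γ, γ ≤ δ → c γ ≠ h → f (c γ * x') = u := by
      intro γ hγ hne
      rw [hx' _ (mem_insert_of_mem _ (mem_image_of_mem _ hγ))]; simp [hne]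
    refine ⟨{y | y.1 (x δ) ∈ U₀ ∧ y.1 x' ∈ U₀}, ?_, ?_, ?_, ?_⟩
    · rintro y ⟨hy1, hy2⟩ ⟨γ, hγ, hy⟩
      rw [← hy] at hy1 hy2
      rcases lt_or_ge δ γ with hlt | hle
      · apply hu
        have := hc1 γ δ hlt
        simp only [row] at hy1
        rw [this] at hy1
        exact hy1
      · by_cases hch : c γ = h
        · exact hh ⟨γ, hγ, by rw [hch]⟩
        · apply hu
          have := h2 γ hle hch
          simp only [row] at hy2
          rw [mul_comm, this] at hy2
          exact hy2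
    · exact (hU₀.preimage ((continuous_apply (x δ)).comp continuous_subtype_val)).inter
        (hU₀.preimage ((continuous_apply x').comp continuous_subtype_val))
    · show f (x δ * h) ∈ U₀
      rw [hδ']; exact hv
    · show f (x' * h) ∈ U₀
      rw [mul_comm, h1]; exact hv
  -- a partition of the index set into two unbounded sets
  have hpart : ∃ Γ : Set I, (∀ i, ∃ γ ∈ Γ, i < γ) ∧ ∀ i, ∃ γ, γ ∉ Γ ∧ i < γ := by
    have hII : #(I ⊕ I) = #I := by
      rw [mk_sum]
      simp only [lift_id]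
      exact add_eq_self (by rw [hI]; exact hG)
    obtain ⟨φ⟩ : Nonempty (I ⊕ I ≃ I) := Cardinal.eq.1 hII
    have key : ∀ ψ : I → I, Function.Injective ψ → ∀ i, ∃ j, i < ψ j := by
      intro ψ hψ i
      by_contra hcon
      push Not at hcon
      have h1 : #I ≤ #(Iic i) := by
        refine mk_le_of_injective (f := fun j => (⟨ψ j, hcon j⟩ : Iic i)) ?_
        intro j k hjk
        exact hψ (congrArg Subtype.val hjk)
      rw [hI] at h1
      exact absurd (mk_Iic_lt hG i) (not_lt.2 h1)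
    refine ⟨range fun i => φ (Sum.inl i), fun i => ?_, fun i => ?_⟩
    · obtain ⟨j, hj⟩ := key (fun i => φ (Sum.inl i))
        (φ.injective.comp Sum.inl_injective) i
      exact ⟨_, ⟨j, rfl⟩, hj⟩
    · obtain ⟨j, hj⟩ := key (fun i => φ (Sum.inr i))
        (φ.injective.comp Sum.inr_injective) i
      refine ⟨φ (Sum.inr j), ?_, hj⟩
      rintro ⟨k, hk⟩
      have := φ.injective hk
      simp at this
  obtain ⟨Γ, hΓ, hΓ'⟩ := hpart
  -- separation
  have hdisj : Disjoint {y : range (row f) | ∃ γ ∈ Γ, row f (c γ) = y.1}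
      {y : range (row f) | ∃ γ ∈ Γᶜ, row f (c γ) = y.1} := by
    rw [Set.disjoint_left]
    rintro y ⟨γ, hγ, h1⟩ ⟨δ, hδ, h2⟩
    have h3 : row f (c γ) = row f (c δ) := h1.trans h2.symm
    have hγδ : γ ≠ δ := fun h => hδ (h ▸ hγ)
    have key : ∀ γ δ, γ < δ → row f (c γ) ≠ row f (c δ) := by
      intro γ δ h heq
      have h4 : f (x γ * c γ) = f (x γ * c δ) := congrFun heq (x γ)
      rw [hc2, hc1 δ γ h] at h4
      exact huv' h4.symm
    rcases lt_or_gt_of_ne hγδ with h | h
    · exact key _ _ h h3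
    · exact key _ _ h h3.symm
  obtain ⟨U, V, hU, hV, hAU, hBV, hUV⟩ := hT.toNormalSpace.normal _ _ (hcl Γ) (hcl Γᶜ) hdisj
  obtain ⟨U', hU', rfl⟩ := isOpen_induced_iff.1 hU
  obtain ⟨V', hV', rfl⟩ := isOpen_induced_iff.1 hV
  have hR : ∀ γ : I, ∃ R : Finset G, ∀ z : G → X, (∀ x ∈ R, z x = row f (c γ) x) →
      (γ ∈ Γ → z ∈ U') ∧ (γ ∉ Γ → z ∈ V') := by
    intro γ
    by_cases hγ : γ ∈ Γ
    · obtain ⟨R, hR⟩ := exists_box hU'
        (show row f (c γ) ∈ U' from hAU (a := ⟨row f (c γ), mem_range_self _⟩) ⟨γ, hγ, rfl⟩)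
      exact ⟨R, fun z hz => ⟨fun _ => hR z hz, fun h => (h hγ).elim⟩⟩
    · obtain ⟨R, hR⟩ := exists_box hV'
        (show row f (c γ) ∈ V' from hBV (a := ⟨row f (c γ), mem_range_self _⟩) ⟨γ, hγ, rfl⟩)
      exact ⟨R, fun z hz => ⟨fun h => (hγ h).elim, fun _ => hR z hz⟩⟩
  choose R hR using hR
  have hnext : ∀ i : I, ∃ γ ∈ Γ, i < γ ∧ ∀ z ∈ R i, x.symm z < γ := by
    intro i
    obtain ⟨j, hj⟩ := hbdd (insert i (x.symm '' (R i : Set G)))
      (((R i).finite_toSet.image _).countable.insert i)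
    obtain ⟨γ, hγ, h⟩ := hΓ j
    refine ⟨γ, hγ, (hj i (mem_insert _ _)).trans h, fun z hz => ?_⟩
    exact (hj _ (mem_insert_of_mem _ (mem_image_of_mem _ hz))).trans h
  choose nx hnx1 hnx2 hnx3 using hnext
  have : Nonempty I := (hbdd ∅ countable_empty).nonempty
  let s : ℕ → I := fun n => nx^[n + 1] (Classical.arbitrary I)
  have hs : ∀ n, s (n + 1) = nx (s n) := fun n => Function.iterate_succ_apply' nx (n + 1) _
  have hsΓ : ∀ n, s n ∈ Γ := by
    intro n
    show nx^[n + 1] _ ∈ Γ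
    rw [Function.iterate_succ_apply']
    exact hnx1 _
  have hsm : StrictMono s := strictMono_nat_of_lt_succ fun n => by
    rw [hs]; exact hnx2 _
  obtain ⟨i, hi⟩ := hbdd (range s) (countable_range s)
  obtain ⟨β, hβ, hiβ⟩ := hΓ' i
  have hsβ : ∀ n, s n < β := fun n => (hi _ (mem_range_self n)).trans hiβ
  -- a good index
  have hgood : ∃ n, ∀ z ∈ R β, z ∈ R (s n) → x.symm z < s n := by
    by_contra hcon
    push Not at hcon
    choose z hz1 hz2 hz3 using hcon
    have hzinj : ∀ m n, m < n → z m ≠ z n := by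
      intro m n hmn heq
      have h1 : x.symm (z m) < s (m + 1) := by
        rw [hs]; exact hnx3 _ _ (hz2 m)
      have h2 : s n ≤ x.symm (z m) := heq ▸ hz3 n
      have h3 : s (m + 1) ≤ s n := hsm.monotone hmn
      exact absurd (h3.trans h2) (not_le.2 h1)
    have hzinj' : Function.Injective z := by
      intro m n h
      rcases lt_trichotomy m n with h' | h' | h'
      · exact (hzinj _ _ h' h).elim
      · exact h'
      · exact (hzinj _ _ h' h.symm).elim
    have hzfin : (range z).Finite := (R β).finite_toSet.subset (by rintro _ ⟨n, rfl⟩; exact hz1 n)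
    exact Set.infinite_range_of_injective hzinj' hzfin
  obtain ⟨n, hn⟩ := hgood
  obtain ⟨g, hg⟩ := hfin ((R (s n) : Set G) ∪ (R β : Set G))
    ((R (s n)).finite_toSet.union (R β).finite_toSet)
    fun z => if z ∈ R β then row f (c β) z else row f (c (s n)) z
  have hgV : row f g ∈ V' := by
    refine (hR β _ fun z hz => ?_).2 hβ
    show f (z * g) = _
    rw [hg z (Or.inr hz)]; simp [hz]
  have hgU : row f g ∈ U' := by
    refine (hR (s n) _ fun z hz => ?_).1 (hsΓ n)
    show f (z * g) = _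
    rw [hg z (Or.inl hz)]
    by_cases hzβ : z ∈ R β
    · have h1 := hn z hzβ hz
      have h2 : f (z * c β) = u := by
        have := hc1 β (x.symm z) (h1.trans (hsβ n))
        simpa using this
      have h3 : f (z * c (s n)) = u := by
        have := hc1 (s n) (x.symm z) h1
        simpa using this
      simp [hzβ, row, h2, h3]
    · simp [hzβ]
  exact (Set.disjoint_left.1 hUV) (a := ⟨row f g, mem_range_self g⟩) hgU hgV

end Pool.H76.KO.Non
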