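import Pool.Agent.H76.KO.Non

/-! Sensors: an unbounded continuous function on a normal orbit, and its translates. -/

open Set Cardinal

universe u v

namespace Pool.H76.KO.Non

variable {G : Type u} {X : Type v} [CommGroup G] [TopologicalSpace X]

/-- All countable patterns are realised. -/
def Kor (f : G → X) : Prop :=
  ∀ M : Set G, M.Countable → ∀ r : G → X, ∃ g : G, ∀ m ∈ M, f (m * g) = r m

/-- A `T₁` orbit gives two values separated by an open set. -/
lemma exists_uv [Nontrivial X] {f : G → X} (hf : Kor f) (hT : T1Space (range (row f))) :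
    ∃ (u v : X) (U₀ : Set X), IsOpen U₀ ∧ v ∈ U₀ ∧ u ∉ U₀ := by
  obtain ⟨a, b, hab⟩ := exists_pair_ne X
  obtain ⟨ga, hga⟩ := hf {1} (countable_singleton 1) fun _ => a
  obtain ⟨gb, hgb⟩ := hf {1} (countable_singleton 1) fun _ => b
  have hrow : row f ga ≠ row f gb := by
    intro h
    have := congrFun h 1
    simp only [row] at this
    rw [hga 1 rfl, hgb 1 rfl] at this
    exact hab this
  obtain ⟨U, hU, hUa, hUb⟩ := t1Space_iff_exists_open.1 hT
    (show (⟨row f ga, mem_range_self _⟩ : range (row f)) ≠ ⟨row f gb, mem_range_self _⟩ from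
      fun h => hrow (congrArg Subtype.val h))
  obtain ⟨U', hU', rfl⟩ := isOpen_induced_iff.1 hU
  rw [isOpen_pi_iff] at hU'
  obtain ⟨I, w, h1, h2⟩ := hU' _ hUa
  have : ¬ ∀ x ∈ I, row f gb x ∈ w x := fun h => hUb (h2 fun x hx => h x hx)
  push Not at this
  obtain ⟨x, hx, hx'⟩ := this
  exact ⟨row f gb x, row f ga x, w x, (h1 x hx).1, (h1 x hx).2, hx'⟩

lemma row_injective [Nontrivial X] {f : G → X} (hf : Kor f) : Function.Injective (row f) := by
  classical
  intro g h heq
  by_contra hne
  obtain ⟨a, b, hab⟩ := exists_pair_ne X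
  obtain ⟨x, hx⟩ := hf {g, h} ((countable_singleton h).insert g) fun z => if z = g then a else b
  have h1 := hx g (by simp)
  have h2 := hx h (by simp)
  simp only [if_true] at h1
  rw [if_neg (Ne.symm hne)] at h2
  have h3 := congrFun heq x
  simp only [row] at h3
  rw [mul_comm x g, mul_comm x h, h1, h2] at h3
  exact hab h3

/-- Countable subsets of a `T₁` orbit are closed. -/
lemma isClosed_of_countable [Nontrivial X] {f : G → X} (hf : Kor f)
    (hT : T1Space (range (row f))) {Z : Set (range (row f))} (hZ : Z.Countable) :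
    IsClosed Z := by
  classical
  obtain ⟨u, v, U₀, hU₀, hv, hu⟩ := exists_uv hf hT
  rw [← isOpen_compl_iff, isOpen_iff_forall_mem_open]
  rintro ⟨_, h, rfl⟩ hh
  choose idx hidx using fun y : range (row f) => y.2
  obtain ⟨x, hx⟩ := hf (insert h (idx '' Z)) ((hZ.image _).insert h)
    fun z => if z = h then v else u
  refine ⟨{y | y.1 x ∈ U₀}, ?_, ?_, ?_⟩
  · intro y hy hyZ
    have h1 := hx (idx y) (mem_insert_of_mem _ (mem_image_of_mem _ hyZ))
    by_cases hyh : idx y = h
    · apply hh
      have : (⟨row f h, mem_range_self h⟩ : range (row f)) = y := by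
        apply Subtype.ext
        show row f h = y.1
        rw [← hidx y, hyh]
      rw [this]
      exact hyZ
    · rw [if_neg hyh] at h1
      apply hu
      have h2 : y.1 x = u := by
        rw [← hidx y]
        show f (x * idx y) = u
        rw [mul_comm]; exact h1
      rw [← h2]; exact hy
  · exact hU₀.preimage ((continuous_apply x).comp continuous_subtype_val)
  · have h1 := hx h (mem_insert _ _)
    show f (x * h) ∈ U₀
    rw [mul_comm, h1, if_pos rfl]
    exact hv

lemma exists_injective [Nontrivial X] {f : G → X} (hf : Kor f) :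
    ∃ q : ℕ → G, Function.Injective q := by
  classical
  by_contra hcon
  have hfin : Finite G := by
    by_contra h
    rw [not_finite_iff_infinite] at h
    exact hcon ⟨_, (Infinite.natEmbedding G).injective⟩
  have h1 : ∀ r : G → X, ∃ g : G, row f g = r := by
    intro r
    obtain ⟨g, hg⟩ := hf univ (finite_univ.countable) r
    exact ⟨g, funext fun x => hg x trivial⟩
  have h2 : Function.Surjective (row f) := h1
  obtain ⟨a, b, hab⟩ := exists_pair_ne X
  -- Cantor
  obtain ⟨g, hg⟩ := h2 fun z => if f (z * z) = a then b else a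
  have := congrFun hg g
  simp only [row] at this
  split_ifs at this with h
  · exact hab (h.symm.trans this)
  · exact h this

/-- A sensor: a continuous function on a normal orbit, a sequence of points, and a countable
subgroup of coordinates which decide that the function is near `n`. -/
lemma exists_sensor [Nontrivial X] {f : G → X} (hf : Kor f) (hT : T4Space (range (row f))) :
    ∃ (φ : range (row f) → ℝ) (q : ℕ → G) (H : Subgroup G), Continuous φ ∧
      (H : Set G).Countable ∧
      ∀ (n : ℕ) (y : range (row f)), (∀ x ∈ H, y.1 x = row f (q n) x) → |φ y - n| < 1 / 5 := by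
  classical
  obtain ⟨q, hq⟩ := exists_injective hf
  have hqr : Function.Injective fun n => (⟨row f (q n), mem_range_self _⟩ : range (row f)) := by
    intro m n h
    exact hq (row_injective hf (congrArg Subtype.val h))
  let s : Set (range (row f)) := range fun n => (⟨row f (q n), mem_range_self _⟩ : range (row f))
  have hs : IsClosed s := isClosed_of_countable hf hT.toT1Space (countable_range _)
  have hdisc : DiscreteTopology s := by
    rw [discreteTopology_iff_forall_isClosed]
    intro t
    have h1 : IsClosed (Subtype.val '' t) :=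
      isClosed_of_countable hf hT.toT1Space (((countable_range _).mono (by
        rintro _ ⟨z, _, rfl⟩; exact z.2)))
    have h2 := h1.preimage (continuous_subtype_val (p := (· ∈ s)))
    rwa [preimage_image_eq _ Subtype.val_injective] at h2
  let ψ : C(s, ℝ) := ⟨fun z => ((Function.invFun
    (fun n => (⟨row f (q n), mem_range_self _⟩ : range (row f))) z.1 : ℕ) : ℝ),
    continuous_of_discreteTopology⟩
  obtain ⟨φ, hφ⟩ := ContinuousMap.exists_restrict_eq hs ψ
  have hφq : ∀ n, φ ⟨row f (q n), mem_range_self _⟩ = n := by
    intro n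
    have h1 := congrArg (fun g : C(s, ℝ) => g ⟨_, mem_range_self n⟩) hφ
    simp only [ContinuousMap.restrict_apply] at h1
    rw [h1]
    show ((Function.invFun _ _ : ℕ) : ℝ) = n
    rw [Function.leftInverse_invFun hqr n]
  have hbox : ∀ n : ℕ, ∃ R : Finset G, ∀ y : range (row f),
      (∀ x ∈ R, y.1 x = row f (q n) x) → |φ y - n| < 1 / 5 := by
    intro n
    have ho : IsOpen {y : range (row f) | |φ y - n| < 1 / 5} :=
      isOpen_lt ((φ.continuous.sub continuous_const).abs) continuous_const
    obtain ⟨U, hU, hUeq⟩ := isOpen_induced_iff.1 ho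
    have hmem : row f (q n) ∈ U := by
      have : (⟨row f (q n), mem_range_self _⟩ : range (row f)) ∈ Subtype.val ⁻¹' U := by
        rw [hUeq]
        show |φ _ - n| < 1 / 5
        rw [hφq]; simp
      exact this
    obtain ⟨R, hR⟩ := exists_box hU hmem
    refine ⟨R, fun y hy => ?_⟩
    have : y ∈ Subtype.val ⁻¹' U := hR y.1 hy
    rw [hUeq] at this
    exact this
  choose R hR using hbox
  let F : Set G := ⋃ n, (R n : Set G)
  have hF : F.Countable := countable_iUnion fun n => (R n).finite_toSet.countable
  refine ⟨φ, q, Subgroup.closure F, φ.continuous, ?_, ?_⟩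
  · have hF' : (F ∪ F⁻¹).Countable := hF.union (hF.preimage inv_injective)
    have : Countable ↥(F ∪ F⁻¹) := hF'.to_subtype
    refine (countable_range fun l : List ↥(F ∪ F⁻¹) => (l.map Subtype.val).prod).mono ?_
    intro x hx
    rw [SetLike.mem_coe, ← Subgroup.mem_toSubmonoid, Subgroup.closure_toSubmonoid] at hx
    obtain ⟨l, hl, hlp⟩ := Submonoid.exists_list_of_mem_closure hx
    refine ⟨l.attach.map fun y => ⟨y.1, hl y.1 y.2⟩, ?_⟩
    simp only [List.map_map]
    rw [← hlp]
    congr 1
    conv_rhs => rw [← List.attach_map_subtype_val l]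
    rfl
  · intro n y hy
    exact hR n y fun x hx => hy x (Subgroup.subset_closure (mem_iUnion.2 ⟨n, hx⟩))

end Pool.H76.KO.Non
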